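import Pool.Agent.T9h27.W.Tw
import Pool.Agent.W388.TW.Final
import Pool.Agent.H385R2.FinDB

/-!
# The number of the primitive characters of conductor at most `Q` prime to `M` (helper27)
-/

set_option autoImplicit false
set_option linter.unusedSectionVars false
set_option linter.unusedVariables false

open Finset

namespace Pool.Agent.T9h27.W

open H385 (primFamM phs cM prim_mass_M cM_pos)
open W388 (rad rad_squarefree primFamM_rad coprime_rad)

/-- the members of the family -/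
def GM (M : ℕ) (i : Σ q : ℕ, DirichletCharacter ℂ q) : Prop :=
  2 ≤ i.1 ∧ Nat.Coprime i.1 M ∧ i.2.IsPrimitive

open Classical in
lemma card_prim {q : ℕ} (h : q ≠ 0) : ((if h : q ≠ 0 then
      haveI : NeZero q := ⟨h⟩
      (univ : Finset (DirichletCharacter ℂ q)).filter (fun χ => χ.IsPrimitive) else ∅ :
        Finset (DirichletCharacter ℂ q)).card) = phs q := by
  rw [dif_pos h]
  haveI : NeZero q := ⟨h⟩
  unfold phs
  rw [Nat.card_eq_fintype_card, Fintype.card_subtype]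

open Classical in
/-- **the size of the family** -/
theorem fam_card {M : ℕ} (hM : M ≠ 0) : ∃ c₁ X₁ : ℝ, 0 < c₁ ∧ ∀ Q : ℕ, X₁ ≤ (Q : ℝ) →
    c₁ * (Q : ℝ) ^ 2 ≤ ((DF Q).filter (GM M)).card := by
  have hsq := rad_squarefree M
  obtain ⟨C, hC, hmass⟩ := prim_mass_M (rad M) hsq
  have hc := cM_pos (rad M) hsq
  obtain ⟨R, hR⟩ : ∃ R : ℕ, Real.exp ((C + 1) / cM (rad M)) ≤ (R : ℝ) := exists_nat_ge _
  have hR0 : (0 : ℝ) < R := lt_of_lt_of_le (Real.exp_pos _) hR
  have hR0' : 0 < R := by exact_mod_cast hR0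
  refine ⟨1 / (4 * (R : ℝ) ^ 2), 2 * R, by positivity, fun Q hQ => ?_⟩
  have hQ' : 2 * R ≤ Q := by exact_mod_cast hQ
  obtain ⟨X, hX⟩ : ∃ X : ℕ, X = Q / R := ⟨_, rfl⟩
  have hX2 : 2 ≤ X := by
    rw [hX, Nat.le_div_iff_mul_le hR0']
    exact hQ'
  have hXQ : X ≤ Q := by rw [hX]; exact Nat.div_le_self _ _
  have hQ0 : (0 : ℝ) < Q := by
    have : 0 < Q := by omega
    exact_mod_cast this
  have hX0 : (0 : ℝ) < X := by exact_mod_cast (by omega : 0 < X)
  have hXR : (X : ℝ) * R ≤ Q := by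
    have := Nat.div_mul_le_self Q R
    rw [← hX] at this
    exact_mod_cast this
  have hXlow : (Q : ℝ) / (2 * R) ≤ X := by
    have h1 : Q < (X + 1) * R := by
      rw [hX]
      exact Nat.lt_mul_of_div_lt (Nat.lt_succ_self _) hR0'
    have h2 : (Q : ℝ) ≤ (X + 1) * R := by exact_mod_cast h1.le
    have h3 : (1 : ℝ) ≤ X := by exact_mod_cast (by omega : 1 ≤ X)
    rw [div_le_iff₀ (by positivity)]
    nlinarith
  have h1 := hmass X Q (by omega) hXQ
  rw [primFamM_rad hM, H385.PMM.primFamM_one] at h1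
  have h2 : (C + 1) / cM (rad M) ≤ Real.log ((Q : ℝ) / X) := by
    rw [Real.le_log_iff_exp_le (by positivity)]
    refine hR.trans ?_
    rw [le_div_iff₀ hX0]
    linarith
  rw [div_le_iff₀ hc] at h2
  have h3 : 1 ≤ ∑ q ∈ (Ioc X Q).filter (fun q => Nat.Coprime q M), (phs q : ℝ) / (q : ℝ) ^ 2 := by
    have := (abs_le.mp h1).1
    linarith
  have h4 : ∑ q ∈ (Ioc X Q).filter (fun q => Nat.Coprime q M), (phs q : ℝ) / (q : ℝ) ^ 2 ≤
      (∑ q ∈ (Ioc X Q).filter (fun q => Nat.Coprime q M), (phs q : ℝ)) / (X : ℝ) ^ 2 := by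
    rw [sum_div]
    refine sum_le_sum fun q hq => ?_
    rw [mem_filter, mem_Ioc] at hq
    have : (X : ℝ) ≤ q := by exact_mod_cast hq.1.1.le
    gcongr
  have h5 : (X : ℝ) ^ 2 ≤ ∑ q ∈ (Ioc X Q).filter (fun q => Nat.Coprime q M), (phs q : ℝ) := by
    have := h3.trans h4
    rw [le_div_iff₀ (by positivity)] at this
    linarith
  obtain ⟨D, hD⟩ : ∃ D : Finset (Σ q : ℕ, DirichletCharacter ℂ q), D =
    ((Ioc X Q).filter (fun q => Nat.Coprime q M)).sigma fun f => if h : f ≠ 0 then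
      haveI : NeZero f := ⟨h⟩
      (univ : Finset (DirichletCharacter ℂ f)).filter (fun χ => χ.IsPrimitive) else ∅ := ⟨_, rfl⟩
  have h6 : D ⊆ (DF Q).filter (GM M) := by
    intro i hi
    rw [hD, mem_sigma, mem_filter, mem_Ioc] at hi
    obtain ⟨⟨⟨g1, g2⟩, g3⟩, g4⟩ := hi
    rw [dif_pos (by omega : i.1 ≠ 0), mem_filter] at g4
    rw [mem_filter, mem_DF]
    exact ⟨⟨by omega, g2, g4.2⟩, by omega, g3, g4.2⟩
  have h7 : (D.card : ℝ) = ∑ q ∈ (Ioc X Q).filter (fun q => Nat.Coprime q M), (phs q : ℝ) := by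
    rw [hD, card_sigma]
    push_cast
    refine sum_congr rfl fun q hq => ?_
    rw [mem_filter, mem_Ioc] at hq
    rw [card_prim (by omega : q ≠ 0)]
  have h8 : (D.card : ℝ) ≤ ((DF Q).filter (GM M)).card := by exact_mod_cast card_le_card h6
  refine le_trans ?_ h8
  rw [h7]
  refine le_trans ?_ h5
  have h9 : ((Q : ℝ) / (2 * R)) ^ 2 ≤ (X : ℝ) ^ 2 := pow_le_pow_left₀ (by positivity) hXlow 2
  refine le_trans (le_of_eq ?_) h9
  field_simp
  norm_num

end Pool.Agent.T9h27.W
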