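import Pool.Agent.T9h27.W.Tw
import Pool.Agent.T9h27.D.Den2

/-!
# The density theorem for twists by the primitive Dirichlet characters (helper27)
-/

set_option autoImplicit false
set_option linter.unusedSectionVars false

namespace Pool.Agent.T9h27.W

open MeasureTheory Complex Finset
open Pool.Agent.T9h27.D

/-- the analytic data of a family of twists -/
structure TwData {M : Type} [CommMonoidWithZero M] (N : M →*₀ ℕ) (ψ : M →*₀ ℂ) (d : ℕ)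
    (A Λ₀ : ℝ) (G : (Σ q : ℕ, DirichletCharacter ℂ q) → Prop)
    (c : (Σ q : ℕ, DirichletCharacter ℂ q) → M →*₀ ℂ)
    (F : (Σ q : ℕ, DirichletCharacter ℂ q) → ℂ → ℂ) : Prop where
  hA : 1 ≤ A
  hL : 1 ≤ Λ₀
  hd : 1 ≤ d
  le1 : ∀ a, ‖ψ a‖ ≤ 1
  hc : ∀ i a, c i a = ψ a * i.2 ((N a : ℕ) : ZMod i.1)
  gl : ∀ i, G i → ∀ Q T : ℝ, (i.1 : ℝ) ≤ Q → 1 ≤ Q → 1 ≤ T →
    GLf N A T (Real.log (Λ₀ * (Q * T) ^ d)) d (c i) (F i)
  nv : ∀ i, G i → ∀ s : ℂ, 1 < s.re → F i s ≠ 0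
  sym : ∀ i, G i → ∀ z : ℂ, 0 < z.re → z.re < 1 →
      analyticOrderNatAt (F i) z = analyticOrderNatAt (F i) (1 - (starRingEnd ℂ) z)

open Classical in
/-- **the density theorem for twists** -/
theorem dens_tw {M : Type} [CommMonoidWithZero M] [NormalizationMonoid M]
    [UniqueFactorizationMonoid M] [Subsingleton Mˣ] [Nontrivial M] {N : M →*₀ ℕ} {n₀ : ℕ}
    (hN : NS N n₀) {ψ : M →*₀ ℂ} {d : ℕ} {A Λ₀ : ℝ}
    {G : (Σ q : ℕ, DirichletCharacter ℂ q) → Prop}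
    {c : (Σ q : ℕ, DirichletCharacter ℂ q) → M →*₀ ℂ}
    {F : (Σ q : ℕ, DirichletCharacter ℂ q) → ℂ → ℂ} (hD : TwData N ψ d A Λ₀ G c F)
    {h c₀ : ℝ} (hh1 : h ≤ 1) (hc0 : 0 < c₀) (hc : c₀ < 2 * h - 1) :
    ∃ κ B X₀ : ℝ, 0 < κ ∧ 0 ≤ B ∧ 1 ≤ X₀ ∧ ∀ (Q : ℕ), X₀ ≤ (Q : ℝ) →
      ∀ T H : ℝ, 1 ≤ T → 1 ≤ H * Real.log ((Q * T) ^ d) → H ≤ T →
      ((Q * T) ^ d) ^ h ≤ (Q : ℝ) ^ 2 * max 1 H →
      ∀ S : Finset (Σ q : ℕ, DirichletCharacter ℂ q), S ⊆ DF Q → (∀ i ∈ S, G i) →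
      ∀ t₁ : ℝ, |t₁| ≤ T → ∀ δ : ℝ, 0 ≤ δ → (1 ≤ H ∨ κ / Real.log ((Q * T) ^ d) ≤ δ) →
      (∀ i ∈ S, (farZ (F i) δ t₁ (t₁ + H)).Finite) ∧
      ∑ i ∈ S, (Nfar (F i) δ t₁ (t₁ + H) : ℝ) ≤
        B * ((Q : ℝ) ^ 2 * H * Real.log ((Q * T) ^ d) * ((Q * T) ^ d) ^ (-(c₀ * δ))) := by
  obtain ⟨g, hg⟩ : ∃ g : ℝ, g = (2 * h - 1 - c₀) / 12 := ⟨_, rfl⟩
  have hg0 : 0 < g := by rw [hg]; linarith
  obtain ⟨C₁, hC₁, hls⟩ := lsu_tw
  obtain ⟨Q₁, R₁, hQ₁, hR₁, hden⟩ := dens_R hN (e := 1) one_pos hh1 hc0 hc hD.hA d hD.hd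
  obtain ⟨κ, Q₂, R₂, hκ, hQ₂, hR₂, hden'⟩ := dens_R_s hN (e := 1) one_pos hh1 hc0 hc hD.hA d hD.hd
  have hL0 : 0 < Λ₀ := by have := hD.hL; linarith
  refine ⟨κ, 4 * C₁ * (Q₁ + Q₂), max (max (Real.exp R₁) (Real.exp R₂)) (Λ₀ ^ (1 / g) + Λ₀), hκ,
    by positivity, ?_, ?_⟩
  · refine le_trans ?_ ((le_max_left _ _).trans (le_max_left _ _))
    exact Real.one_le_exp (by linarith)
  intro Q hX T H hT hHR hHT hCh S hS hSG t₁ ht₁ δ hδ hor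
  have hXa : Real.exp R₁ ≤ (Q : ℝ) := ((le_max_left _ _).trans (le_max_left _ _)).trans hX
  have hXb : Real.exp R₂ ≤ (Q : ℝ) := ((le_max_right _ _).trans (le_max_left _ _)).trans hX
  have hXc : Λ₀ ^ (1 / g) + Λ₀ ≤ (Q : ℝ) := (le_max_right _ _).trans hX
  have hLg : 0 < Λ₀ ^ (1 / g) := Real.rpow_pos_of_pos hL0 _
  have hXd : Λ₀ ^ (1 / g) ≤ (Q : ℝ) := by linarith
  have hXe : Λ₀ ≤ (Q : ℝ) := by linarith
  have hQ1 : (1 : ℝ) ≤ Q := (Real.one_le_exp (by linarith)).trans hXa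
  have hQ1' : 1 ≤ Q := by exact_mod_cast hQ1
  have hQ0 : (0 : ℝ) < Q := by linarith
  have hT0 : 0 < T := by linarith
  obtain ⟨C, hC⟩ : ∃ C : ℝ, C = ((Q : ℝ) * T) ^ d := ⟨_, rfl⟩
  rw [← hC] at hHR hCh hor ⊢
  have hQT1 : 1 ≤ (Q : ℝ) * T := one_le_mul_of_one_le_of_one_le hQ1 hT
  have hQC : (Q : ℝ) ≤ C := by
    rw [hC]
    calc (Q : ℝ) ≤ Q * T := le_mul_of_one_le_right hQ0.le hT
      _ = (Q * T) ^ 1 := (pow_one _).symm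
      _ ≤ (Q * T) ^ d := pow_le_pow_right₀ hQT1 hD.hd
  have hC1 : 1 ≤ C := hQ1.trans hQC
  have hC0 : 0 < C := by linarith
  obtain ⟨R, hR⟩ : ∃ R : ℝ, R = Real.log (Λ₀ * C) := ⟨_, rfl⟩
  have hLC : 0 < Λ₀ * C := by positivity
  have hRlog : R = Real.log Λ₀ + Real.log C := by rw [hR, Real.log_mul hL0.ne' hC0.ne']
  have hlogL : 0 ≤ Real.log Λ₀ := Real.log_nonneg hD.hL
  have hlogC : 0 ≤ Real.log C := Real.log_nonneg hC1
  have hCR : Real.log C ≤ R := by linarith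
  have hRC : R ≤ 2 * Real.log C := by
    have : Real.log Λ₀ ≤ Real.log C := Real.log_le_log hL0 (hXe.trans hQC)
    linarith
  have hRR₁ : R₁ ≤ R := by
    refine le_trans ?_ hCR
    rw [Real.le_log_iff_exp_le hC0]
    exact hXa.trans hQC
  have hRR₂ : R₂ ≤ R := by
    refine le_trans ?_ hCR
    rw [Real.le_log_iff_exp_le hC0]
    exact hXb.trans hQC
  have hR0 : 0 < R := by linarith
  have hlogC0 : 0 < Real.log C := by linarith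
  have hH0 : 0 < H := by
    by_contra h'
    push Not at h'
    nlinarith
  obtain ⟨P, hP⟩ : ∃ P : ℝ, P = C₁ * ((Q : ℝ) ^ 2 * H) := ⟨_, rfl⟩
  have hP0 : 0 ≤ P := by rw [hP]; positivity
  have hcard : (S.card : ℝ) * H ≤ P := by
    have h1 : (S.card : ℝ) ≤ (Q : ℝ) ^ 2 := by
      refine le_trans ?_ (DF_card Q)
      exact_mod_cast card_le_card hS
    rw [hP]
    calc (S.card : ℝ) * H ≤ (Q : ℝ) ^ 2 * H := mul_le_mul_of_nonneg_right h1 hH0.le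
      _ ≤ C₁ * ((Q : ℝ) ^ 2 * H) := le_mul_of_one_le_left (by positivity) hC₁
  have hlsu : ∀ X : ℕ, 1 ≤ X → (X : ℝ) ≤ Real.exp ((h - (2 * h - 1 - c₀) / 12) * R) →
      LSU N S c H P 1 X := by
    intro X _ hXe'
    rw [hP]
    refine hls hN ψ hD.le1 Q hQ1' S hS c hD.hc H 1 hH0 X (hXe'.trans (le_trans ?_ hCh))
    rw [← hg, hR, mul_comm, Real.exp_mul, Real.exp_log hLC, Real.mul_rpow hL0.le hC0.le]
    have h1 : Λ₀ ^ (h - g) ≤ Λ₀ := by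
      calc Λ₀ ^ (h - g) ≤ Λ₀ ^ (1 : ℝ) := Real.rpow_le_rpow_of_exponent_le hD.hL (by linarith)
        _ = Λ₀ := Real.rpow_one _
    have h2 : Λ₀ ≤ C ^ g := by
      have h3 : (Λ₀ ^ (1 / g)) ^ g = Λ₀ := by
        rw [← Real.rpow_mul hL0.le, one_div_mul_cancel hg0.ne', Real.rpow_one]
      rw [← h3]
      exact Real.rpow_le_rpow hLg.le (hXd.trans hQC) hg0.le
    calc Λ₀ ^ (h - g) * C ^ (h - g) ≤ C ^ g * C ^ (h - g) :=
          mul_le_mul_of_nonneg_right (h1.trans h2) (Real.rpow_nonneg hC0.le _)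
      _ = C ^ h := by rw [← Real.rpow_add hC0]; congr 1; ring
  have hGL : ∀ i ∈ S, GLf N A T R d (c i) (F i) := by
    intro i hi
    have h1 := (mem_DF.mp (hS hi)).2.1
    have h2 := hD.gl i (hSG i hi) Q T (by exact_mod_cast h1) hQ1 hT
    rw [← hC, ← hR] at h2
    exact h2
  have hne : ∀ i ∈ S, F i 2 ≠ 0 := fun i hi => hD.nv i (hSG i hi) 2 (by norm_num)
  have hcount : ∀ Z : (Σ q : ℕ, DirichletCharacter ℂ q) → Finset ℂ,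
      (∀ i ∈ S, ∀ z ∈ Z i, 1 / 2 + δ ≤ z.re ∧ t₁ ≤ z.im ∧ z.im ≤ t₁ + H) →
      ∑ i ∈ S, ∑ z ∈ Z i, (analyticOrderNatAt (F i) z : ℝ) ≤
        (Q₁ + Q₂) * (P * R * Real.exp (-(c₀ * R * δ))) := by
    intro Z hZ
    have hE : 0 ≤ P * R * Real.exp (-(c₀ * R * δ)) := by positivity
    rcases hor with hor | hor
    · refine (hden R T H P _ S c F hRR₁ hor hHT hcard hlsu hGL
        (fun i hi => hD.nv i (hSG i hi)) t₁ ht₁ δ hδ Z hZ).trans ?_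
      exact mul_le_mul_of_nonneg_right (by linarith) hE
    · refine (hden' R T H P _ S c F hRR₂ hT (hHR.trans (mul_le_mul_of_nonneg_left hCR hH0.le)) hHT
        hcard hlsu hGL (fun i hi => hD.nv i (hSG i hi)) t₁ ht₁ δ ?_ Z hZ).trans ?_
      · exact (div_le_div_of_nonneg_left hκ.le hlogC0 hCR).trans hor
      · exact mul_le_mul_of_nonneg_right (by linarith) hE
  have hfin := two_side S F (δ := δ) (t₁ := t₁) (H := H) hδ (fun i hi => (hGL i hi).diff) hne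
    (fun i hi => hD.sym i (hSG i hi)) hcount
  refine ⟨hfin.1, hfin.2.trans ?_⟩
  have h1 : Real.exp (-(c₀ * R * δ)) ≤ C ^ (-(c₀ * δ)) := by
    rw [Real.rpow_def_of_pos hC0]
    refine Real.exp_le_exp.mpr ?_
    have := mul_le_mul_of_nonneg_right hCR (by positivity : (0 : ℝ) ≤ c₀ * δ)
    linarith
  rw [hP]
  calc 2 * ((Q₁ + Q₂) * (C₁ * ((Q : ℝ) ^ 2 * H) * R * Real.exp (-(c₀ * R * δ)))) ≤
      2 * ((Q₁ + Q₂) * (C₁ * ((Q : ℝ) ^ 2 * H) * (2 * Real.log C) * C ^ (-(c₀ * δ)))) := by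
        have : 0 ≤ C ^ (-(c₀ * δ)) := Real.rpow_nonneg hC0.le _
        gcongr
    _ = _ := by ring

end Pool.Agent.T9h27.W
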