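import Pool.Agent.T9h27.W.DenW

/-!
# The density theorem for twists, all heights (helper27)
-/

set_option autoImplicit false
set_option linter.unusedSectionVars false

namespace Pool.Agent.T9h27.W

open MeasureTheory Complex Finset
open Pool.Agent.T9h27.D

/-- the square of the length of the Dirichlet polynomials divided by the conductor -/
noncomputable def VV (d : ℕ) (Q T H : ℝ) : ℝ := (Q ^ 2 * max 1 H) ^ 2 / (Q * T) ^ d

lemma VV_pos {d : ℕ} {Q T H : ℝ} (hQ : 0 < Q) (hT : 0 < T) : 0 < VV d Q T H := by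
  unfold VV
  have : 0 < max 1 H := lt_of_lt_of_le one_pos (le_max_left _ _)
  positivity

open Classical in
/-- **the density theorem for twists** -/
theorem dens_V {M : Type} [CommMonoidWithZero M] [NormalizationMonoid M]
    [UniqueFactorizationMonoid M] [Subsingleton Mˣ] [Nontrivial M] {N : M →*₀ ℕ} {n₀ : ℕ}
    (hN : NS N n₀) {ψ : M →*₀ ℂ} {d : ℕ} {A Λ₀ : ℝ}
    {G : (Σ q : ℕ, DirichletCharacter ℂ q) → Prop}
    {c : (Σ q : ℕ, DirichletCharacter ℂ q) → M →*₀ ℂ}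
    {F : (Σ q : ℕ, DirichletCharacter ℂ q) → ℂ → ℂ} (hD : TwData N ψ d A Λ₀ G c F)
    (hd2 : 2 ≤ d) {ε : ℝ} (hε : 0 < ε) (hε1 : ε ≤ 1) :
    ∃ K : ℝ, 1 ≤ K ∧ ∀ (Q : ℕ), K ≤ (Q : ℝ) →
      ∀ T H : ℝ, 1 ≤ T → 1 ≤ H * Real.log (Q * T) → H ≤ T → (Q * T) ^ ε ≤ VV d Q T H →
      ∀ S : Finset (Σ q : ℕ, DirichletCharacter ℂ q), S ⊆ DF Q → (∀ i ∈ S, G i) →
      ∀ t₁ : ℝ, |t₁| ≤ T → ∀ δ : ℝ, 0 ≤ δ → (1 ≤ H ∨ K / Real.log (Q * T) ≤ δ) →
      (∀ i ∈ S, (farZ (F i) δ t₁ (t₁ + H)).Finite) ∧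
      ∑ i ∈ S, (Nfar (F i) δ t₁ (t₁ + H) : ℝ) ≤
        K * ((Q : ℝ) ^ 2 * H * Real.log (Q * T) * VV d Q T H ^ (-((1 - ε) * δ))) := by
  have hd0 : (0 : ℝ) < d := by exact_mod_cast (by omega : 0 < d)
  have hd1 : (1 : ℝ) ≤ d := by exact_mod_cast (by omega : 1 ≤ d)
  obtain ⟨s, hs⟩ : ∃ s : ℝ, s = ε ^ 2 / (2 * d) := ⟨_, rfl⟩
  have hs0 : 0 < s := by rw [hs]; positivity
  have hex : ∀ j : ℕ, 1 ≤ j → j * s ≤ 1 → ∃ κ B X₀ : ℝ, 0 < κ ∧ 0 ≤ B ∧ 1 ≤ X₀ ∧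
      ∀ (Q : ℕ), X₀ ≤ (Q : ℝ) →
      ∀ T H : ℝ, 1 ≤ T → 1 ≤ H * Real.log ((Q * T) ^ d) → H ≤ T →
      ((Q * T) ^ d) ^ (1 / 2 + j * s / 2) ≤ (Q : ℝ) ^ 2 * max 1 H →
      ∀ S : Finset (Σ q : ℕ, DirichletCharacter ℂ q), S ⊆ DF Q → (∀ i ∈ S, G i) →
      ∀ t₁ : ℝ, |t₁| ≤ T → ∀ δ : ℝ, 0 ≤ δ → (1 ≤ H ∨ κ / Real.log ((Q * T) ^ d) ≤ δ) →
      (∀ i ∈ S, (farZ (F i) δ t₁ (t₁ + H)).Finite) ∧
      ∑ i ∈ S, (Nfar (F i) δ t₁ (t₁ + H) : ℝ) ≤
        B * ((Q : ℝ) ^ 2 * H * Real.log ((Q * T) ^ d) *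
          ((Q * T) ^ d) ^ (-((j * s - s / 2) * δ))) := by
    intro j hj hjs
    have hj1 : (1 : ℝ) ≤ j := by exact_mod_cast hj
    have h1 : s ≤ j * s := le_mul_of_one_le_left hs0.le hj1
    exact dens_tw hN hD (h := 1 / 2 + j * s / 2) (c₀ := j * s - s / 2) (by linarith)
      (by linarith) (by linarith)
  choose! κ B X₀ hκ hB hX₀ hden using hex
  obtain ⟨J, hJ⟩ : ∃ J : ℕ, J = ⌊1 / s⌋₊ + 1 := ⟨_, rfl⟩
  obtain ⟨K, hK⟩ : ∃ K : ℝ, K = 1 + ∑ j ∈ range J, (|κ j| + |B j| * d + |X₀ j|) := ⟨_, rfl⟩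
  have hK1 : 1 ≤ K := by
    rw [hK]
    have : 0 ≤ ∑ j ∈ range J, (|κ j| + |B j| * d + |X₀ j|) := sum_nonneg fun j _ => by positivity
    linarith
  have hKj : ∀ j : ℕ, j * s ≤ 1 → κ j ≤ K ∧ B j * d ≤ K ∧ X₀ j ≤ K := by
    intro j hj
    have hjJ : j ∈ range J := by
      rw [mem_range, hJ, Nat.lt_succ_iff]
      refine Nat.le_floor ?_
      rw [le_div_iff₀ hs0]
      exact hj
    have h1 := single_le_sum (f := fun j => |κ j| + |B j| * d + |X₀ j|)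
      (fun j _ => by positivity) hjJ
    have h2 := le_abs_self (κ j)
    have h3 := mul_le_mul_of_nonneg_right (le_abs_self (B j)) hd0.le
    have h4 := le_abs_self (X₀ j)
    have h5 := abs_nonneg (κ j)
    have h6 : 0 ≤ |B j| * d := by positivity
    have h7 := abs_nonneg (X₀ j)
    refine ⟨?_, ?_, ?_⟩ <;> (rw [hK]; linarith)
  refine ⟨max K 3, le_max_of_le_left hK1, ?_⟩
  intro Q hKQ T H hT hHR hHT hV S hS hSG t₁ ht₁ δ hδ hor
  have hKQ1 : K ≤ (Q : ℝ) := (le_max_left _ _).trans hKQ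
  have hQ3 : 3 ≤ (Q : ℝ) := (le_max_right _ _).trans hKQ
  have hQ1 : (1 : ℝ) ≤ Q := by linarith
  have hQ0 : (0 : ℝ) < Q := by linarith
  have hT0 : 0 < T := by linarith
  obtain ⟨D, hDd⟩ : ∃ D : ℝ, D = (Q : ℝ) * T := ⟨_, rfl⟩
  have hD1 : 3 ≤ D := by rw [hDd]; nlinarith
  have hD0 : 0 < D := by linarith
  obtain ⟨m, hm⟩ : ∃ m : ℝ, m = max 1 H := ⟨_, rfl⟩
  have hm1 : 1 ≤ m := by rw [hm]; exact le_max_left _ _
  have hmT : m ≤ T := by rw [hm]; exact max_le hT hHT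
  obtain ⟨V, hVd⟩ : ∃ V : ℝ, V = VV d Q T H := ⟨_, rfl⟩
  have hVe : V * D ^ d = ((Q : ℝ) ^ 2 * m) ^ 2 := by
    rw [hVd, VV, ← hDd, ← hm]
    field_simp
  rw [← hVd, ← hDd] at hV ⊢
  rw [← hDd] at hHR hor
  have hV1 : 1 ≤ V := (Real.one_le_rpow (by linarith) hε.le).trans hV
  have hV0 : 0 < V := by linarith
  obtain ⟨C, hC⟩ : ∃ C : ℝ, C = D ^ d := ⟨_, rfl⟩
  rw [← hC] at hVe
  have hDC : D ≤ C := by
    rw [hC]
    calc D = D ^ 1 := (pow_one _).symm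
      _ ≤ D ^ d := pow_le_pow_right₀ (by linarith) (by omega)
  have hC0 : 0 < C := by linarith
  have hC1 : 1 < C := by linarith
  have hlogC : Real.log C = d * Real.log D := by rw [hC, Real.log_pow]
  have hlogD : 1 ≤ Real.log D := by
    rw [Real.le_log_iff_exp_le hD0]
    have := Real.exp_one_lt_d9
    linarith
  have hlogD0 : 0 < Real.log D := by linarith
  have hlogC0 : 0 < Real.log C := by rw [hlogC]; positivity
  -- the exponent
  obtain ⟨y, hy⟩ : ∃ y : ℝ, y = Real.log V / Real.log C := ⟨_, rfl⟩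
  have hVy : V = C ^ y := by
    rw [Real.rpow_def_of_pos hC0, hy, mul_div_cancel₀ _ hlogC0.ne', Real.exp_log hV0]
  have hyl : ε / d ≤ y := by
    rw [hy, div_le_div_iff₀ hd0 hlogC0, hlogC]
    have := Real.log_le_log (by positivity) hV
    rw [Real.log_rpow hD0] at this
    nlinarith
  have hVC : V ≤ C := by
    have h1 : ((Q : ℝ) ^ 2 * m) ≤ C := by
      calc ((Q : ℝ) ^ 2 * m) ≤ (Q : ℝ) ^ 2 * T ^ 2 := by
            refine mul_le_mul_of_nonneg_left ?_ (by positivity)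
            nlinarith
        _ = D ^ 2 := by rw [hDd]; ring
        _ ≤ D ^ d := pow_le_pow_right₀ (by linarith) hd2
        _ = C := hC.symm
    have h2 : V * C ≤ C * C := by
      rw [hVe, sq]
      exact mul_le_mul h1 h1 (by positivity) hC0.le
    exact le_of_mul_le_mul_right h2 hC0
  have hyu : y ≤ 1 := by
    rw [hy, div_le_one hlogC0]
    exact Real.log_le_log hV0 hVC
  obtain ⟨j, hj⟩ : ∃ j : ℕ, j = ⌊y / s⌋₊ := ⟨_, rfl⟩
  have hsy : s ≤ y := by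
    refine le_trans ?_ hyl
    rw [hs, div_le_div_iff₀ (by positivity) hd0]
    have : ε ^ 2 ≤ ε := by nlinarith
    nlinarith
  have hy0 : 0 < y := by linarith
  have hj1 : 1 ≤ j := by
    rw [hj]
    refine Nat.le_floor ?_
    rw [Nat.cast_one, le_div_iff₀ hs0]
    linarith
  have hjy : j * s ≤ y := by
    have h1 := Nat.floor_le (show 0 ≤ y / s by positivity)
    rw [← hj, le_div_iff₀ hs0] at h1
    exact h1
  have hjy' : y < j * s + s := by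
    have h1 := Nat.lt_floor_add_one (y / s)
    rw [← hj, div_lt_iff₀ hs0] at h1
    linarith
  obtain ⟨k1, k2, k3⟩ := hKj j (hjy.trans hyu)
  have hcond : C ^ (1 / 2 + j * s / 2) ≤ (Q : ℝ) ^ 2 * max 1 H := by
    rw [← hm]
    have h1 : (C ^ (1 / 2 + j * s / 2)) ^ 2 ≤ ((Q : ℝ) ^ 2 * m) ^ 2 := by
      rw [← hVe, hVy, ← Real.rpow_natCast, ← Real.rpow_mul hC0.le]
      calc C ^ ((1 / 2 + j * s / 2) * ((2 : ℕ) : ℝ)) ≤ C ^ (y + 1) := by
            refine Real.rpow_le_rpow_of_exponent_le hC1.le ?_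
            push_cast
            linarith
        _ = C ^ y * C := by rw [Real.rpow_add hC0, Real.rpow_one]
    exact (pow_le_pow_iff_left₀ (by positivity) (by positivity) two_ne_zero).mp h1
  have hR' : 1 ≤ H * Real.log (D ^ d) := by
    rw [← hC, hlogC]
    have hH0 : 0 < H := by
      by_contra h'
      push Not at h'
      nlinarith
    calc 1 ≤ H * Real.log D := hHR
      _ ≤ H * (d * Real.log D) :=
        mul_le_mul_of_nonneg_left (le_mul_of_one_le_left hlogD0.le hd1) hH0.le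
  have hor' : 1 ≤ H ∨ κ j / Real.log (D ^ d) ≤ δ := by
    rcases hor with h | h
    · exact Or.inl h
    · refine Or.inr (le_trans ?_ h)
      rw [← hC]
      have h1 : Real.log D ≤ Real.log C := Real.log_le_log hD0 hDC
      have h2 : κ j ≤ max K 3 := k1.trans (le_max_left _ _)
      have h3 : 0 < κ j := hκ j hj1 (hjy.trans hyu)
      exact div_le_div₀ (h3.le.trans h2) h2 hlogD0 h1
  have h5 := hden j hj1 (hjy.trans hyu) Q (k3.trans hKQ1) T H hT (by rw [← hDd]; exact hR') hHT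
    (by rw [← hDd, ← hC]; exact hcond) S hS hSG t₁ ht₁ δ hδ (by rw [← hDd]; exact hor')
  refine ⟨h5.1, h5.2.trans ?_⟩
  have hH0 : 0 < H := by
    by_contra h'
    push Not at h'
    nlinarith
  rw [← hDd, ← hC, hlogC]
  have h6 : C ^ (-((j * s - s / 2) * δ)) ≤ V ^ (-((1 - ε) * δ)) := by
    rw [hVy, ← Real.rpow_mul hC0.le]
    refine Real.rpow_le_rpow_of_exponent_le hC1.le ?_
    have h7 : (1 - ε) * y ≤ j * s - s / 2 := by
      have h8 : 2 * s ≤ ε * y := by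
        have h9 : ε * (ε / d) ≤ ε * y := mul_le_mul_of_nonneg_left hyl hε.le
        have h10 : 2 * s = ε * (ε / d) := by rw [hs]; field_simp
        linarith
      nlinarith
    nlinarith
  have h7 : 0 ≤ C ^ (-((j * s - s / 2) * δ)) := Real.rpow_nonneg hC0.le _
  have h8 : 0 ≤ V ^ (-((1 - ε) * δ)) := Real.rpow_nonneg hV0.le _
  have h9 : B j * d ≤ max K 3 := k2.trans (le_max_left _ _)
  have h10 : 0 ≤ B j := hB j hj1 (hjy.trans hyu)
  calc B j * ((Q : ℝ) ^ 2 * H * (d * Real.log D) * C ^ (-((j * s - s / 2) * δ))) =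
      (B j * d) * ((Q : ℝ) ^ 2 * H * Real.log D * C ^ (-((j * s - s / 2) * δ))) := by ring
    _ ≤ max K 3 * ((Q : ℝ) ^ 2 * H * Real.log D * V ^ (-((1 - ε) * δ))) := by
      gcongr

end Pool.Agent.T9h27.W
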