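import Pool.Agent.T9h27.C.Nd
import Pool.Agent.T9h27.W.DenW

/-!
# Exponential moments of the number of zeros near a point, twists (helper27)
-/

set_option autoImplicit false
set_option linter.unusedSectionVars false

namespace Pool.Agent.T9h27.W

open MeasureTheory Complex Finset
open Pool.Agent.T9h27.D
open Pool.Agent.T9h27.C

open Classical in
/-- **exponential moments for twists** -/
theorem expm_tw {M : Type} [CommMonoidWithZero M] [NormalizationMonoid M]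
    [UniqueFactorizationMonoid M] [Subsingleton Mˣ] [Nontrivial M] {N : M →*₀ ℕ} {n₀ : ℕ}
    (hN : NS N n₀) {ψ : M →*₀ ℂ} {d : ℕ} {A Λ₀ : ℝ}
    {G : (Σ q : ℕ, DirichletCharacter ℂ q) → Prop}
    {c : (Σ q : ℕ, DirichletCharacter ℂ q) → M →*₀ ℂ}
    {F : (Σ q : ℕ, DirichletCharacter ℂ q) → ℂ → ℂ} (hD : TwData N ψ d A Λ₀ G c F)
    {θ : ℝ} (hθ : 0 ≤ θ) (hdθ : d * (1 + θ) < 4) :
    ∃ a C X₀ : ℝ, 0 < a ∧ 0 < C ∧ 1 ≤ X₀ ∧ ∀ (Q : ℕ), X₀ ≤ (Q : ℝ) →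
      ∀ S : Finset (Σ q : ℕ, DirichletCharacter ℂ q), S ⊆ DF Q → (∀ i ∈ S, G i) →
      ∀ t : ℝ, |t| ≤ (Q : ℝ) ^ θ → ∀ r : ℝ, 0 ≤ r → r ≤ 1 / 4 →
      (∀ i ∈ S, (zd (F i) t r).Finite) ∧
      ∑ i ∈ S, Real.exp (a * (nd (F i) t r : ℝ)) ≤
        (Q : ℝ) ^ 2 * C * Real.exp (C * (r * Real.log Q)) := by
  have hd1 : (1 : ℝ) ≤ d := by exact_mod_cast hD.hd
  obtain ⟨D, hDD⟩ : ∃ D : ℝ, D = d * (1 + θ) := ⟨_, rfl⟩
  rw [← hDD] at hdθ
  have hD1 : 1 ≤ D := by rw [hDD]; nlinarith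
  have hD0 : 0 < D := by linarith
  obtain ⟨h, hh⟩ : ∃ h : ℝ, h = min 1 (2 / D) := ⟨_, rfl⟩
  have hh1 : h ≤ 1 := by rw [hh]; exact min_le_left _ _
  have hh2 : h * D ≤ 2 := by
    have : h ≤ 2 / D := by rw [hh]; exact min_le_right _ _
    calc h * D ≤ 2 / D * D := mul_le_mul_of_nonneg_right this hD0.le
      _ = 2 := by field_simp
  have hh3 : 1 / 2 < h := by
    rw [hh]
    refine lt_min (by norm_num) ?_
    rw [lt_div_iff₀ hD0]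
    linarith
  obtain ⟨g, hg⟩ : ∃ g : ℝ, g = (2 * h - 1) / 24 := ⟨_, rfl⟩
  have hg0 : 0 < g := by rw [hg]; linarith
  obtain ⟨C₁, hC₁, hls⟩ := lsu_tw
  obtain ⟨a, C₂, R₂, ha, hC₂, hR₂, hexp⟩ := exp_fam hN (e := 1) one_pos hh3 hh1 hD.hA d hD.hd
  have hL0 : 0 < Λ₀ := by have := hD.hL; linarith
  have hlogL : 0 ≤ Real.log Λ₀ := Real.log_nonneg hD.hL
  refine ⟨a, C₁ * C₂ * 1 + C₂ * (1 + D), max (Real.exp R₂) (Λ₀ ^ (1 / g) + Λ₀), ha,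
    by positivity, ?_, ?_⟩
  · refine le_trans ?_ (le_max_left _ _)
    exact Real.one_le_exp (by linarith)
  intro Q hX S hS hSG t ht r hr0 hr1
  have hXb : Real.exp R₂ ≤ (Q : ℝ) := (le_max_left _ _).trans hX
  have hXc : Λ₀ ^ (1 / g) + Λ₀ ≤ (Q : ℝ) := (le_max_right _ _).trans hX
  have hLg : 0 < Λ₀ ^ (1 / g) := Real.rpow_pos_of_pos hL0 _
  have hXd : Λ₀ ^ (1 / g) ≤ (Q : ℝ) := by linarith
  have hXe : Λ₀ ≤ (Q : ℝ) := by linarith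
  have hQ1 : (1 : ℝ) ≤ Q := (Real.one_le_exp (by linarith)).trans hXb
  have hQ1' : 1 ≤ Q := by exact_mod_cast hQ1
  have hQ0 : (0 : ℝ) < Q := by linarith
  obtain ⟨T, hT⟩ : ∃ T : ℝ, T = (Q : ℝ) ^ θ := ⟨_, rfl⟩
  rw [← hT] at ht
  have hT1 : 1 ≤ T := by rw [hT]; exact Real.one_le_rpow hQ1 hθ
  obtain ⟨C, hC⟩ : ∃ C : ℝ, C = ((Q : ℝ) * T) ^ d := ⟨_, rfl⟩
  have hCD : C = (Q : ℝ) ^ D := by
    rw [hC, hT, hDD]
    have e1 : (Q : ℝ) * (Q : ℝ) ^ θ = (Q : ℝ) ^ (1 + θ) := by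
      rw [Real.rpow_add hQ0, Real.rpow_one]
    rw [e1, ← Real.rpow_natCast, ← Real.rpow_mul hQ0.le]
    congr 1
    ring
  have hQC : (Q : ℝ) ≤ C := by
    rw [hCD]
    calc (Q : ℝ) = (Q : ℝ) ^ (1 : ℝ) := (Real.rpow_one _).symm
      _ ≤ (Q : ℝ) ^ D := Real.rpow_le_rpow_of_exponent_le hQ1 hD1
  have hC1 : 1 ≤ C := hQ1.trans hQC
  have hC0 : 0 < C := by linarith
  obtain ⟨R, hR⟩ : ∃ R : ℝ, R = Real.log (Λ₀ * C) := ⟨_, rfl⟩
  have hLC : 0 < Λ₀ * C := by positivity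
  have hRlog : R = Real.log Λ₀ + Real.log C := by rw [hR, Real.log_mul hL0.ne' hC0.ne']
  have hlogC : Real.log C = D * Real.log Q := by rw [hCD, Real.log_rpow hQ0]
  have hlogQ : 0 ≤ Real.log Q := Real.log_nonneg hQ1
  have hRle : R ≤ (1 + D) * Real.log Q := by
    have := Real.log_le_log hL0 hXe
    rw [hRlog, hlogC]
    linarith
  have hCR : Real.log C ≤ R := by linarith
  have hRR₂ : R₂ ≤ R := by
    refine le_trans ?_ hCR
    rw [Real.le_log_iff_exp_le hC0]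
    exact hXb.trans hQC
  have hR0 : 0 < R := by linarith
  have hinvR : 0 < 1 / R := by positivity
  have hcard : (S.card : ℝ) ≤ C₁ * (Q : ℝ) ^ 2 := by
    have h1 : (S.card : ℝ) ≤ (Q : ℝ) ^ 2 := by
      refine le_trans ?_ (DF_card Q)
      exact_mod_cast card_le_card hS
    exact h1.trans (le_mul_of_one_le_left (by positivity) hC₁)
  have hlsu : ∀ X : ℕ, 1 ≤ X → (X : ℝ) ≤ Real.exp ((h - (2 * h - 1) / 24) * R) →
      LSU N S c (1 / R) (C₁ * (Q : ℝ) ^ 2 * (1 / R)) 1 X := by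
    intro X _ hXe'
    rw [mul_assoc]
    have hmax : (Q : ℝ) ^ 2 ≤ (Q : ℝ) ^ 2 * max 1 (1 / R) :=
      le_mul_of_one_le_right (by positivity) (le_max_left _ _)
    refine hls hN ψ hD.le1 Q hQ1' S hS c hD.hc (1 / R) 1 hinvR X (hXe'.trans (le_trans ?_ hmax))
    rw [← hg, hR, mul_comm, Real.exp_mul, Real.exp_log hLC, Real.mul_rpow hL0.le hC0.le]
    have h1 : Λ₀ ^ (h - g) ≤ Λ₀ := by
      calc Λ₀ ^ (h - g) ≤ Λ₀ ^ (1 : ℝ) := Real.rpow_le_rpow_of_exponent_le hD.hL (by linarith)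
        _ = Λ₀ := Real.rpow_one _
    have h2 : Λ₀ ≤ C ^ g := by
      have h3 : (Λ₀ ^ (1 / g)) ^ g = Λ₀ := by
        rw [← Real.rpow_mul hL0.le, one_div_mul_cancel hg0.ne', Real.rpow_one]
      rw [← h3]
      exact Real.rpow_le_rpow hLg.le (hXd.trans hQC) hg0.le
    have h4 : C ^ h ≤ (Q : ℝ) ^ 2 := by
      rw [hCD, ← Real.rpow_mul hQ0.le, ← Real.rpow_natCast]
      refine Real.rpow_le_rpow_of_exponent_le hQ1 ?_
      push_cast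
      linarith
    calc Λ₀ ^ (h - g) * C ^ (h - g) ≤ C ^ g * C ^ (h - g) :=
          mul_le_mul_of_nonneg_right (h1.trans h2) (Real.rpow_nonneg hC0.le _)
      _ = C ^ h := by rw [← Real.rpow_add hC0]; congr 1; ring
      _ ≤ (Q : ℝ) ^ 2 := h4
  have hGL : ∀ i ∈ S, GLf N A T R d (c i) (F i) := by
    intro i hi
    have h1 := (mem_DF.mp (hS hi)).2.1
    have h2 := hD.gl i (hSG i hi) Q T (by exact_mod_cast h1) hQ1 hT1
    rw [← hC, ← hR] at h2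
    exact h2
  have hne : ∀ i ∈ S, F i 2 ≠ 0 := fun i hi => hD.nv i (hSG i hi) 2 (by norm_num)
  have h5 := exp_nd S F (t := t) (r := r) ha (fun i hi => (hGL i hi).diff) hne
    (fun Z hZ => hexp R T (C₁ * (Q : ℝ) ^ 2) _ S c F hRR₂ hT1 hcard hlsu hGL t ht r hr0 hr1 Z hZ)
  refine ⟨h5.1, h5.2.trans ?_⟩
  have h6 : C₂ * (r * R) ≤ (C₁ * C₂ * 1 + C₂ * (1 + D)) * (r * Real.log Q) := by
    have h7 : r * R ≤ r * ((1 + D) * Real.log Q) := mul_le_mul_of_nonneg_left hRle hr0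
    have h8 := mul_le_mul_of_nonneg_left h7 hC₂.le
    have h9 : 0 ≤ C₁ * C₂ * (r * Real.log Q) := by positivity
    linarith
  have h7 : C₁ * C₂ ≤ C₁ * C₂ * 1 + C₂ * (1 + D) := by
    have : 0 ≤ C₂ * (1 + D) := by positivity
    linarith
  calc C₁ * (Q : ℝ) ^ 2 * C₂ * Real.exp (C₂ * (r * R)) =
        (Q : ℝ) ^ 2 * (C₁ * C₂) * Real.exp (C₂ * (r * R)) := by ring
    _ ≤ _ := by
        have := Real.exp_le_exp.mpr h6
        gcongr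

end Pool.Agent.T9h27.W
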