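import Mathlib

/-!
# A Gaussian form of Gallagher's identity (helper27)
-/

set_option autoImplicit false

namespace Pool.Agent.T9h27.W

open MeasureTheory Complex

/-- the Gaussian integral in the height -/
lemma gint_t {T : ℝ} (hT : 0 < T) (x : ℝ) :
    ∫ t : ℝ, ((Real.exp (-(t / T) ^ 2) : ℝ) : ℂ) * cexp (-((t * x : ℝ) : ℂ) * I) =
      ((Real.sqrt Real.pi * T * Real.exp (-(T * x) ^ 2 / 4) : ℝ) : ℂ) := by
  have hb : 0 < ((1 / T ^ 2 : ℝ) : ℂ).re := by
    rw [Complex.ofReal_re]; positivity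
  have h := fourierIntegral_gaussian hb (-(x : ℂ))
  have e1 : ∀ t : ℝ, ((Real.exp (-(t / T) ^ 2) : ℝ) : ℂ) * cexp (-((t * x : ℝ) : ℂ) * I) =
      cexp (I * (-(x : ℂ)) * (t : ℂ)) * cexp (-((1 / T ^ 2 : ℝ) : ℂ) * (t : ℂ) ^ 2) := by
    intro t
    rw [Complex.ofReal_exp, ← Complex.exp_add, ← Complex.exp_add]
    congr 1
    push_cast
    field_simp
    ring
  rw [integral_congr_ae (Filter.Eventually.of_forall e1), h]
  have e2 : ((Real.pi : ℂ) / ((1 / T ^ 2 : ℝ) : ℂ)) ^ (1 / 2 : ℂ) =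
      ((Real.sqrt Real.pi * T : ℝ) : ℂ) := by
    have h1 : (Real.pi : ℂ) / ((1 / T ^ 2 : ℝ) : ℂ) = ((Real.pi * T ^ 2 : ℝ) : ℂ) := by
      push_cast
      have : (T : ℂ) ≠ 0 := by exact_mod_cast hT.ne'
      field_simp
    have h2 : (1 / 2 : ℂ) = ((1 / 2 : ℝ) : ℂ) := by push_cast; ring
    rw [h1, h2, ← Complex.ofReal_cpow (by positivity), ← Real.sqrt_eq_rpow,
      Real.sqrt_mul (by positivity), Real.sqrt_sq hT.le]
  have e3 : cexp (-(-(x : ℂ)) ^ 2 / (4 * ((1 / T ^ 2 : ℝ) : ℂ))) =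
      ((Real.exp (-(T * x) ^ 2 / 4) : ℝ) : ℂ) := by
    rw [Complex.ofReal_exp]
    congr 1
    push_cast
    have : (T : ℂ) ≠ 0 := by exact_mod_cast hT.ne'
    field_simp
  rw [e2, e3, ← Complex.ofReal_mul]

/-- the Gaussian integral in `v` -/
lemma gint_v {T : ℝ} (hT : 0 < T) (x y : ℝ) :
    ∫ v : ℝ, Real.exp (-(T * (x - v)) ^ 2 / 2) * Real.exp (-(T * (y - v)) ^ 2 / 2) =
      Real.sqrt Real.pi / T * Real.exp (-(T * (x - y)) ^ 2 / 4) := by
  have e1 : ∀ v : ℝ, Real.exp (-(T * (x - v)) ^ 2 / 2) * Real.exp (-(T * (y - v)) ^ 2 / 2) =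
      Real.exp (-(T * (x - y)) ^ 2 / 4) * Real.exp (-T ^ 2 * (v - (x + y) / 2) ^ 2) := by
    intro v
    rw [← Real.exp_add, ← Real.exp_add]
    congr 1
    ring
  rw [integral_congr_ae (Filter.Eventually.of_forall e1), integral_const_mul,
    integral_sub_right_eq_self (fun v : ℝ => Real.exp (-T ^ 2 * v ^ 2)), integral_gaussian,
    Real.sqrt_div (by positivity), Real.sqrt_sq hT.le]
  ring

lemma gintv_int {T : ℝ} (hT : 0 < T) (x y : ℝ) :
    Integrable fun v : ℝ => Real.exp (-(T * (x - v)) ^ 2 / 2) * Real.exp (-(T * (y - v)) ^ 2 / 2) := by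
  have e1 : (fun v : ℝ => Real.exp (-(T * (x - v)) ^ 2 / 2) * Real.exp (-(T * (y - v)) ^ 2 / 2)) =
      fun v => Real.exp (-(T * (x - y)) ^ 2 / 4) * Real.exp (-T ^ 2 * (v - (x + y) / 2) ^ 2) := by
    funext v
    rw [← Real.exp_add, ← Real.exp_add]
    congr 1
    ring
  rw [e1]
  exact ((integrable_exp_neg_mul_sq (b := T ^ 2) (by positivity)).comp_sub_right _).const_mul _

lemma gintt_int {T : ℝ} (hT : 0 < T) (x : ℝ) :
    Integrable fun t : ℝ => ((Real.exp (-(t / T) ^ 2) : ℝ) : ℂ) * cexp (-((t * x : ℝ) : ℂ) * I) := by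
  have h1 : Integrable fun t : ℝ => Real.exp (-(1 / T ^ 2) * t ^ 2) :=
    integrable_exp_neg_mul_sq (by positivity)
  refine h1.mono' (Continuous.aestronglyMeasurable (by fun_prop)) (Filter.Eventually.of_forall
    fun t => ?_)
  rw [norm_mul, Complex.norm_real, Real.norm_of_nonneg (Real.exp_pos _).le, Complex.norm_exp]
  have e : (-((t * x : ℝ) : ℂ) * I).re = 0 := by simp
  rw [e, Real.exp_zero, mul_one]
  refine le_of_eq ?_
  congr 1
  field_simp

/-- **Gallagher's identity**, Gaussian form -/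
theorem gauss_id {ι : Type} (S : Finset ι) (a : ι → ℂ) (x : ι → ℝ) {T : ℝ} (hT : 0 < T) :
    ∫ t : ℝ, Real.exp (-(t / T) ^ 2) * ‖∑ i ∈ S, a i * cexp (-((t * x i : ℝ) : ℂ) * I)‖ ^ 2 =
      T ^ 2 * ∫ v : ℝ, ‖∑ i ∈ S, a i * (Real.exp (-(T * (x i - v)) ^ 2 / 2) : ℝ)‖ ^ 2 := by
  have hsq : ∀ z : ℂ, ((‖z‖ ^ 2 : ℝ) : ℂ) = z * (starRingEnd ℂ) z := by
    intro z
    rw [Complex.mul_conj, Complex.normSq_eq_norm_sq]
  have hL : ((∫ t : ℝ, Real.exp (-(t / T) ^ 2) *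
      ‖∑ i ∈ S, a i * cexp (-((t * x i : ℝ) : ℂ) * I)‖ ^ 2 : ℝ) : ℂ) =
      ∑ i ∈ S, ∑ j ∈ S, a i * (starRingEnd ℂ) (a j) *
        ((Real.sqrt Real.pi * T * Real.exp (-(T * (x i - x j)) ^ 2 / 4) : ℝ) : ℂ) := by
    rw [← integral_complex_ofReal]
    have e1 : ∀ t : ℝ, ((Real.exp (-(t / T) ^ 2) *
        ‖∑ i ∈ S, a i * cexp (-((t * x i : ℝ) : ℂ) * I)‖ ^ 2 : ℝ) : ℂ) =
        ∑ i ∈ S, ∑ j ∈ S, a i * (starRingEnd ℂ) (a j) *
          (((Real.exp (-(t / T) ^ 2) : ℝ) : ℂ) *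
            cexp (-((t * (x i - x j) : ℝ) : ℂ) * I)) := by
      intro t
      rw [Complex.ofReal_mul, hsq, map_sum, Finset.sum_mul_sum, Finset.mul_sum]
      refine Finset.sum_congr rfl fun i _ => ?_
      rw [Finset.mul_sum]
      refine Finset.sum_congr rfl fun j _ => ?_
      rw [map_mul, ← Complex.exp_conj]
      have e2 : cexp (-((t * (x i - x j) : ℝ) : ℂ) * I) = cexp (-((t * x i : ℝ) : ℂ) * I) *
          cexp ((starRingEnd ℂ) (-((t * x j : ℝ) : ℂ) * I)) := by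
        rw [← Complex.exp_add]
        congr 1
        rw [map_mul, map_neg, Complex.conj_ofReal, Complex.conj_I]
        push_cast
        ring
      rw [e2]
      ring
    rw [integral_congr_ae (Filter.Eventually.of_forall e1), integral_finsetSum]
    · refine Finset.sum_congr rfl fun i _ => ?_
      rw [integral_finsetSum]
      · refine Finset.sum_congr rfl fun j _ => ?_
        rw [integral_const_mul, gint_t hT]
      · intro j _
        exact (gintt_int hT _).const_mul _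
    · intro i _
      exact integrable_finsetSum _ fun j _ => (gintt_int hT _).const_mul _
  have hR : ((∫ v : ℝ, ‖∑ i ∈ S, a i * (Real.exp (-(T * (x i - v)) ^ 2 / 2) : ℝ)‖ ^ 2 : ℝ) : ℂ) =
      ∑ i ∈ S, ∑ j ∈ S, a i * (starRingEnd ℂ) (a j) *
        ((Real.sqrt Real.pi / T * Real.exp (-(T * (x i - x j)) ^ 2 / 4) : ℝ) : ℂ) := by
    rw [← integral_complex_ofReal]
    have e1 : ∀ v : ℝ, ((‖∑ i ∈ S, a i * (Real.exp (-(T * (x i - v)) ^ 2 / 2) : ℝ)‖ ^ 2 : ℝ) : ℂ) =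
        ∑ i ∈ S, ∑ j ∈ S, a i * (starRingEnd ℂ) (a j) *
          ((Real.exp (-(T * (x i - v)) ^ 2 / 2) * Real.exp (-(T * (x j - v)) ^ 2 / 2) : ℝ) : ℂ) := by
      intro v
      rw [hsq, map_sum, Finset.sum_mul_sum]
      refine Finset.sum_congr rfl fun i _ => Finset.sum_congr rfl fun j _ => ?_
      rw [map_mul, Complex.conj_ofReal, Complex.ofReal_mul]
      ring
    have hi : ∀ i j : ι, Integrable fun v : ℝ =>
        ((Real.exp (-(T * (x i - v)) ^ 2 / 2) * Real.exp (-(T * (x j - v)) ^ 2 / 2) : ℝ) : ℂ) :=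
      fun i j => (gintv_int hT (x i) (x j)).ofReal
    rw [integral_congr_ae (Filter.Eventually.of_forall e1), integral_finsetSum]
    · refine Finset.sum_congr rfl fun i _ => ?_
      rw [integral_finsetSum]
      · refine Finset.sum_congr rfl fun j _ => ?_
        rw [integral_const_mul, integral_complex_ofReal, gint_v hT]
      · intro j _
        exact (hi i j).const_mul _
    · intro i _
      exact integrable_finsetSum _ fun j _ => (hi i j).const_mul _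
  have hfin : ((∫ t : ℝ, Real.exp (-(t / T) ^ 2) *
      ‖∑ i ∈ S, a i * cexp (-((t * x i : ℝ) : ℂ) * I)‖ ^ 2 : ℝ) : ℂ) =
      ((T ^ 2 * ∫ v : ℝ, ‖∑ i ∈ S, a i * (Real.exp (-(T * (x i - v)) ^ 2 / 2) : ℝ)‖ ^ 2 : ℝ) : ℂ) := by
    rw [hL, Complex.ofReal_mul, hR, Finset.mul_sum]
    refine Finset.sum_congr rfl fun i _ => ?_
    rw [Finset.mul_sum]
    refine Finset.sum_congr rfl fun j _ => ?_
    have hT0 : (T : ℂ) ≠ 0 := by exact_mod_cast hT.ne'
    push_cast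
    field_simp
  exact_mod_cast hfin

end Pool.Agent.T9h27.W
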