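import Pool.Agent.T9h27.W.Gid
import Pool.Agent.Helper112.MultLS

/-!
# The hybrid large sieve inequality (helper27)
-/

set_option autoImplicit false

namespace Pool.Agent.T9h27.W

open MeasureTheory Complex Finset

open Classical in
/-- the sum over the primitive characters of conductor at most `F` -/
noncomputable def PF (F : ℕ) (g : (f : ℕ) → DirichletCharacter ℂ f → ℝ) : ℝ :=
  ∑ f ∈ Icc 1 F, if h : f ≠ 0 then
    haveI : NeZero f := ⟨h⟩
    ∑ χ ∈ (univ : Finset (DirichletCharacter ℂ f)).filter (fun χ => χ.IsPrimitive), g f χ else 0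

open Classical in
/-- the large sieve inequality for coefficients in a block `(M, M + H]` -/
theorem block_ls (N M H F : ℕ) (hMH : M + H ≤ N) (α : ℕ → ℂ)
    (hα : ∀ n, α n ≠ 0 → M < n ∧ n ≤ M + H) :
    PF F (fun f χ => ‖∑ n ∈ Icc 1 N, α n * χ (n : ZMod f)‖ ^ 2) ≤
      6 * (H + (F : ℝ) ^ 2) * ∑ n ∈ Icc 1 N, ‖α n‖ ^ 2 := by
  -- the shifted sequence
  have hinj : ∀ x ∈ Icc 1 H, ∀ y ∈ Icc 1 H, M + x = M + y → x = y := by
    intro x _ y _ h
    omega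
  have hsum : ∀ {E : Type} [AddCommMonoid E] (g : ℕ → E), (∀ n, α n = 0 → g n = 0) →
      ∑ n ∈ Icc 1 N, g n = ∑ m ∈ Icc 1 H, g (M + m) := by
    intro E _ g hg
    rw [← sum_image (f := g) hinj]
    symm
    refine sum_subset ?_ ?_
    · intro n hn
      obtain ⟨m, hm, rfl⟩ := mem_image.mp hn
      rw [mem_Icc] at hm ⊢
      omega
    · intro n _ hn2
      refine hg n ?_
      by_contra h
      obtain ⟨h1, h2⟩ := hα n h
      exact hn2 (mem_image.mpr ⟨n - M, by rw [mem_Icc]; omega, by omega⟩)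
  have hT : ∀ (f : ℕ) [NeZero f] (a : ZMod f), ‖Pool.Agent.Helper112.MLS.T f N α a‖ =
      ‖Pool.Agent.Helper112.MLS.T f H (fun m => α (M + m)) a‖ := by
    intro f _ a
    unfold Pool.Agent.Helper112.MLS.T
    rw [hsum _ (fun n h => by rw [h, zero_mul])]
    have h1 : ∀ m ∈ Icc 1 H, α (M + m) * ZMod.stdAddChar (a * ((M + m : ℕ) : ZMod f)) =
        ZMod.stdAddChar (a * (M : ZMod f)) * (α (M + m) * ZMod.stdAddChar (a * (m : ZMod f))) := by
      intro m _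
      rw [Nat.cast_add, mul_add, AddChar.map_add_eq_mul]
      ring
    rw [sum_congr rfl h1, ← mul_sum, norm_mul]
    have h2 : ‖(ZMod.stdAddChar (a * (M : ZMod f)) : ℂ)‖ = 1 := AddChar.norm_apply _ _
    rw [h2, one_mul]
  have hmain : PF F (fun f χ => ‖∑ n ∈ Icc 1 N, α n * χ (n : ZMod f)‖ ^ 2) ≤
      ∑ f ∈ Icc 1 F, ∑ a ∈ (range f).filter (fun a => a.Coprime f),
        ‖∑ n ∈ Icc 1 H, (fun m => α (M + m)) n * Pool.Agent.Helper112.ee (n * a / f)‖ ^ 2 := by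
    unfold PF
    refine sum_le_sum fun f hf => ?_
    rw [mem_Icc] at hf
    have hf0 : f ≠ 0 := by omega
    rw [dif_pos hf0]
    haveI : NeZero f := ⟨hf0⟩
    rw [← Pool.Agent.Helper112.MLS.sum_units]
    have h1 := Pool.Agent.Helper112.MLS.prim_bound f N α
    simp only [hT] at h1
    refine le_trans ?_ h1
    have h2 : (1 : ℝ) ≤ (f : ℝ) / (Nat.totient f : ℝ) := by
      rw [one_le_div (by exact_mod_cast Nat.totient_pos.mpr (by omega : 0 < f))]
      exact_mod_cast Nat.totient_le f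
    exact le_mul_of_one_le_left (sum_nonneg fun _ _ => by positivity) h2
  refine hmain.trans ((Pool.Agent.Helper112.additive_large_sieve H F _).trans (le_of_eq ?_))
  rw [hsum (fun n => ‖α n‖ ^ 2) (fun n h => by simp [h])]

lemma PF_nonneg (F : ℕ) {g : (f : ℕ) → DirichletCharacter ℂ f → ℝ} (h : ∀ f χ, 0 ≤ g f χ) :
    0 ≤ PF F g := by
  unfold PF
  refine sum_nonneg fun f _ => ?_
  split_ifs
  · exact sum_nonneg fun χ _ => h f χ
  · exact le_rfl

lemma PF_mono (F : ℕ) {g g' : (f : ℕ) → DirichletCharacter ℂ f → ℝ} (h : ∀ f χ, g f χ ≤ g' f χ) :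
    PF F g ≤ PF F g' := by
  unfold PF
  refine sum_le_sum fun f _ => ?_
  split_ifs
  · exact sum_le_sum fun χ _ => h f χ
  · exact le_rfl

lemma PF_const_mul (F : ℕ) (c : ℝ) (g : (f : ℕ) → DirichletCharacter ℂ f → ℝ) :
    PF F (fun f χ => c * g f χ) = c * PF F g := by
  unfold PF
  rw [mul_sum]
  refine sum_congr rfl fun f _ => ?_
  split_ifs
  · rw [mul_sum]
  · rw [mul_zero]

lemma PF_sum {ι : Type} (F : ℕ) (J : Finset ι) (g : ι → (f : ℕ) → DirichletCharacter ℂ f → ℝ) :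
    PF F (fun f χ => ∑ j ∈ J, g j f χ) = ∑ j ∈ J, PF F (g j) := by
  unfold PF
  rw [sum_comm]
  refine sum_congr rfl fun f _ => ?_
  split_ifs
  · rw [sum_comm]
  · simp

lemma PF_integral (F : ℕ) (g : ℝ → (f : ℕ) → DirichletCharacter ℂ f → ℝ)
    (h : ∀ f χ, Integrable fun v => g v f χ) :
    PF F (fun f χ => ∫ v : ℝ, g v f χ) = ∫ v : ℝ, PF F (g v) := by
  unfold PF
  rw [integral_finsetSum]
  · refine sum_congr rfl fun f _ => ?_
    split_ifs
    · rw [integral_finsetSum]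
      exact fun χ _ => h f χ
    · simp
  · intro f _
    split_ifs
    · exact integrable_finsetSum _ fun χ _ => h f χ
    · exact integrable_zero _ _ _

lemma exp_sum : ∃ Λ : ℝ, 1 ≤ Λ ∧ ∀ J : Finset ℤ, ∑ j ∈ J, Real.exp (-|(j : ℝ)|) ≤ Λ := by
  have hs : Summable fun j : ℤ => Real.exp (-|(j : ℝ)|) := by
    have h1 : Summable fun n : ℕ => Real.exp (-(n : ℝ)) := Real.summable_exp_neg_nat
    refine Summable.of_nat_of_neg ?_ ?_
    · refine h1.congr fun n => ?_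
      push_cast
      rw [abs_of_nonneg (Nat.cast_nonneg n)]
    · refine h1.congr fun n => ?_
      push_cast
      rw [abs_neg, abs_of_nonneg (Nat.cast_nonneg n)]
  refine ⟨max 1 (∑' j : ℤ, Real.exp (-|(j : ℝ)|)), le_max_left _ _, fun J => ?_⟩
  exact (hs.sum_le_tsum J fun _ _ => (Real.exp_pos _).le).trans (le_max_right _ _)

/-- the bound for a fixed value of `v` -/
theorem hyb_fixed : ∃ C : ℝ, 1 ≤ C ∧ ∀ (N F : ℕ) (b : ℕ → ℂ) (T v : ℝ), 1 ≤ T →
    PF F (fun f χ => ‖∑ n ∈ Icc 1 N, (b n * (Real.exp (-(T * (Real.log n - v)) ^ 2 / 2) : ℝ)) *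
      χ (n : ZMod f)‖ ^ 2) ≤
      C * ∑ n ∈ Icc 1 N, (2 * n / T + 1 + (F : ℝ) ^ 2) * ‖b n‖ ^ 2 *
        Real.exp (-(T ^ 2 / 2) * (v - Real.log n) ^ 2) := by
  classical
  obtain ⟨Λ, hΛ, hexp⟩ := exp_sum
  refine ⟨6 * Λ * Real.exp (3 / 2), ?_, ?_⟩
  · have : 1 ≤ Real.exp (3 / 2) := Real.one_le_exp (by norm_num)
    nlinarith [mul_le_mul hΛ this zero_le_one (by linarith)]
  intro N F b T v hT
  have hT0 : 0 < T := by linarith
  obtain ⟨w, hw⟩ : ∃ w : ℕ → ℝ, ∀ n, w n = Real.exp (-(T * (Real.log n - v)) ^ 2 / 2) :=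
    ⟨_, fun _ => rfl⟩
  obtain ⟨j, hj⟩ : ∃ j : ℕ → ℤ, ∀ n, j n = ⌊T * (Real.log n - v)⌋ := ⟨_, fun _ => rfl⟩
  set J : Finset ℤ := (Icc 1 N).image j with hJ
  obtain ⟨c, hc⟩ : ∃ c : ℤ → ℕ → ℂ, ∀ i n, c i n = if n ∈ Icc 1 N ∧ j n = i then b n * (w n : ℂ)
      else 0 := ⟨fun i n => if n ∈ Icc 1 N ∧ j n = i then b n * (w n : ℂ) else 0, fun _ _ => rfl⟩
  -- splitting into blocks
  have hsplit : ∀ (f : ℕ) (χ : DirichletCharacter ℂ f),
      ∑ n ∈ Icc 1 N, (b n * (Real.exp (-(T * (Real.log n - v)) ^ 2 / 2) : ℝ)) * χ (n : ZMod f) =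
      ∑ i ∈ J, ∑ n ∈ Icc 1 N, c i n * χ (n : ZMod f) := by
    intro f χ
    rw [sum_comm]
    refine sum_congr rfl fun n hn => ?_
    rw [← sum_mul]
    congr 1
    have hjn : j n ∈ J := mem_image_of_mem _ hn
    rw [sum_eq_single (j n)]
    · rw [hc, if_pos ⟨hn, rfl⟩, hw]
    · intro i _ hi
      rw [hc, if_neg]
      rintro ⟨-, h⟩
      exact hi h.symm
    · intro h
      exact absurd hjn h
  -- Cauchy-Schwarz
  have hCS : ∀ (f : ℕ) (χ : DirichletCharacter ℂ f),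
      ‖∑ n ∈ Icc 1 N, (b n * (Real.exp (-(T * (Real.log n - v)) ^ 2 / 2) : ℝ)) *
        χ (n : ZMod f)‖ ^ 2 ≤
      ∑ i ∈ J, (Λ * Real.exp |(i : ℝ)|) * ‖∑ n ∈ Icc 1 N, c i n * χ (n : ZMod f)‖ ^ 2 := by
    intro f χ
    rw [hsplit]
    have h1 : ‖∑ i ∈ J, ∑ n ∈ Icc 1 N, c i n * χ (n : ZMod f)‖ ≤
        ∑ i ∈ J, ‖∑ n ∈ Icc 1 N, c i n * χ (n : ZMod f)‖ := norm_sum_le _ _
    have h2 := sum_sq_le_sum_mul_sum_of_sq_eq_mul J
      (r := fun i => ‖∑ n ∈ Icc 1 N, c i n * χ (n : ZMod f)‖)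
      (f := fun i => Real.exp (-|(i : ℝ)|))
      (g := fun i => Real.exp |(i : ℝ)| * ‖∑ n ∈ Icc 1 N, c i n * χ (n : ZMod f)‖ ^ 2)
      (fun i _ => (Real.exp_pos _).le) (fun i _ => by positivity) (fun i _ => by
        rw [← mul_assoc, ← Real.exp_add, neg_add_cancel, Real.exp_zero, one_mul])
    refine (pow_le_pow_left₀ (norm_nonneg _) h1 2).trans (h2.trans ?_)
    refine (mul_le_mul_of_nonneg_right (hexp J) (sum_nonneg fun _ _ => by positivity)).trans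
      (le_of_eq ?_)
    rw [mul_sum]
    refine sum_congr rfl fun i _ => ?_
    ring
  refine (PF_mono F hCS).trans ?_
  rw [PF_sum]
  -- the blocks
  have hblock : ∀ i ∈ J, PF F (fun f χ => (Λ * Real.exp |(i : ℝ)|) *
      ‖∑ n ∈ Icc 1 N, c i n * χ (n : ZMod f)‖ ^ 2) ≤
      6 * Λ * Real.exp (3 / 2) * ∑ n ∈ (Icc 1 N).filter (fun n => j n = i),
        (2 * n / T + 1 + (F : ℝ) ^ 2) * ‖b n‖ ^ 2 *
        Real.exp (-(T ^ 2 / 2) * (v - Real.log n) ^ 2) := by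
    intro i _
    rw [PF_const_mul]
    obtain ⟨x, hx⟩ : ∃ x : ℝ, x = Real.exp (v + i / T) := ⟨_, rfl⟩
    obtain ⟨y, hy⟩ : ∃ y : ℝ, y = Real.exp (v + (i + 1) / T) := ⟨_, rfl⟩
    have hx0 : 0 < x := by rw [hx]; exact Real.exp_pos _
    have hy0 : 0 < y := by rw [hy]; exact Real.exp_pos _
    have hxy : x ≤ y := by
      rw [hx, hy]
      refine Real.exp_le_exp.mpr ?_
      have : (i : ℝ) / T ≤ (i + 1) / T := div_le_div_of_nonneg_right (by linarith) hT0.le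
      linarith
    have hyx : y ≤ x * (1 + 2 / T) := by
      have h1 : y = x * Real.exp (1 / T) := by
        rw [hx, hy, ← Real.exp_add]
        congr 1
        ring
      rw [h1]
      refine mul_le_mul_of_nonneg_left ?_ hx0.le
      have h2 : 1 / T ≤ 1 := (div_le_one hT0).mpr hT
      have h3 : 0 < 1 / T := by positivity
      have h4 := Real.exp_bound' h3.le h2 (n := 1) one_pos
      simp at h4
      have h5 : Real.exp (1 / T) ≤ 1 + 2 * (1 / T) := by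
        have h6 := Real.exp_bound' h3.le h2 (n := 2) (by norm_num)
        norm_num [Finset.sum_range_succ] at h6
        have h7 : (T⁻¹) ^ 2 ≤ T⁻¹ := by
          have : T⁻¹ ≤ 1 := by rw [← one_div]; exact h2
          have h8 : 0 < T⁻¹ := by positivity
          nlinarith
        rw [one_div] at h3 ⊢
        nlinarith
      have h6 : 2 / T = 2 * (1 / T) := by ring
      rw [h6]
      exact h5
    have hmem : ∀ n ∈ Icc 1 N, j n = i → x ≤ n ∧ (n : ℝ) < y := by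
      intro n hn hjn
      rw [mem_Icc] at hn
      have hn0 : (0 : ℝ) < n := by exact_mod_cast hn.1
      rw [hj, Int.floor_eq_iff] at hjn
      obtain ⟨h1, h2⟩ := hjn
      constructor
      · rw [hx, ← Real.le_log_iff_exp_le hn0]
        have : (i : ℝ) / T ≤ Real.log n - v := by
          rw [div_le_iff₀ hT0]
          linarith
        linarith
      · rw [hy, ← Real.log_lt_iff_lt_exp hn0]
        have : Real.log n - v < (i + 1) / T := by
          rw [lt_div_iff₀ hT0]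
          linarith
        linarith
    -- the block as an interval
    obtain ⟨M, hM⟩ : ∃ M : ℕ, M = min (⌈x⌉₊ - 1) N := ⟨_, rfl⟩
    obtain ⟨M₂, hM₂⟩ : ∃ M₂ : ℕ, M₂ = min (⌈y⌉₊ - 1) N := ⟨_, rfl⟩
    have hcx : 1 ≤ ⌈x⌉₊ := Nat.one_le_ceil_iff.mpr hx0
    have hcy : 1 ≤ ⌈y⌉₊ := Nat.one_le_ceil_iff.mpr hy0
    have hcxy : ⌈x⌉₊ ≤ ⌈y⌉₊ := Nat.ceil_le_ceil hxy
    have hMM : M ≤ M₂ := by rw [hM, hM₂]; omega
    have hMN : M₂ ≤ N := by rw [hM₂]; exact min_le_right _ _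
    have hHle : ((M₂ - M : ℕ) : ℝ) ≤ 2 * x / T + 1 := by
      have h1 : M₂ - M ≤ ⌈y⌉₊ - ⌈x⌉₊ := by rw [hM, hM₂]; omega
      have h2 : ((⌈y⌉₊ - ⌈x⌉₊ : ℕ) : ℝ) ≤ y - x + 1 := by
        rw [Nat.cast_sub hcxy]
        have h3 := Nat.ceil_lt_add_one hy0.le
        have h4 := Nat.le_ceil x
        linarith
      have h3 : ((M₂ - M : ℕ) : ℝ) ≤ ((⌈y⌉₊ - ⌈x⌉₊ : ℕ) : ℝ) := by exact_mod_cast h1
      have h4 : x * (1 + 2 / T) = x + 2 * x / T := by ring
      rw [h4] at hyx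
      linarith
    have hLS := block_ls N M (M₂ - M) F (by omega) (c i) (by
      intro n hn
      rw [hc] at hn
      by_cases h : n ∈ Icc 1 N ∧ j n = i
      · obtain ⟨h1, h2⟩ := hmem n h.1 h.2
        have hnN := (mem_Icc.mp h.1).2
        have hn1 := (mem_Icc.mp h.1).1
        have h3 : ⌈x⌉₊ ≤ n := Nat.ceil_le.mpr h1
        have h4 : n < ⌈y⌉₊ := Nat.lt_ceil.mpr h2
        constructor
        · rw [hM]
          omega
        · rw [hM₂, hM] at *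
          omega
      · rw [if_neg h] at hn
        exact absurd rfl hn)
    have hsq : ∑ n ∈ Icc 1 N, ‖c i n‖ ^ 2 = ∑ n ∈ (Icc 1 N).filter (fun n => j n = i),
        ‖b n‖ ^ 2 * w n ^ 2 := by
      rw [sum_filter]
      refine sum_congr rfl fun n hn => ?_
      rw [hc]
      by_cases h : j n = i
      · rw [if_pos ⟨hn, h⟩, if_pos h, norm_mul, Complex.norm_real, mul_pow,
          Real.norm_of_nonneg (by rw [hw]; exact (Real.exp_pos _).le)]
      · rw [if_neg (fun h' => h h'.2), if_neg h]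
        simp
    rw [hsq] at hLS
    refine (mul_le_mul_of_nonneg_left hLS (by positivity)).trans ?_
    rw [mul_sum, mul_sum, mul_sum]
    refine sum_le_sum fun n hn => ?_
    obtain ⟨hn1, hn2⟩ := mem_filter.mp hn
    obtain ⟨h1, h2⟩ := hmem n hn1 hn2
    have h3 : ((M₂ - M : ℕ) : ℝ) + (F : ℝ) ^ 2 ≤ 2 * n / T + 1 + (F : ℝ) ^ 2 := by
      have h4 : 2 * x / T ≤ 2 * n / T := by gcongr
      linarith
    obtain ⟨s, hs⟩ : ∃ s : ℝ, s = T * (Real.log n - v) := ⟨_, rfl⟩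
    have hws : w n ^ 2 = Real.exp (-s ^ 2) := by
      rw [hw, ← Real.exp_nat_mul, ← hs]
      congr 1
      push_cast
      ring
    have his : |(i : ℝ)| ≤ |s| + 1 := by
      rw [hj, Int.floor_eq_iff, ← hs] at hn2
      obtain ⟨a1, a2⟩ := hn2
      have a3 := le_abs_self s
      have a4 := neg_abs_le s
      rw [abs_le]
      constructor <;> linarith
    have hexp2 : Real.exp |(i : ℝ)| * Real.exp (-s ^ 2) ≤ Real.exp (3 / 2) *
        Real.exp (-(T ^ 2 / 2) * (v - Real.log n) ^ 2) := by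
      rw [← Real.exp_add, ← Real.exp_add]
      refine Real.exp_le_exp.mpr ?_
      have a5 : -(T ^ 2 / 2) * (v - Real.log n) ^ 2 = -(s ^ 2 / 2) := by rw [hs]; ring
      rw [a5]
      have a6 : |s| ≤ s ^ 2 / 2 + 1 / 2 := by
        rw [← sq_abs]
        nlinarith [sq_nonneg (|s| - 1)]
      linarith
    rw [hws]
    calc Λ * Real.exp |(i : ℝ)| * (6 * (((M₂ - M : ℕ) : ℝ) + (F : ℝ) ^ 2) *
          (‖b n‖ ^ 2 * Real.exp (-s ^ 2))) =
        6 * Λ * (((M₂ - M : ℕ) : ℝ) + (F : ℝ) ^ 2) * ‖b n‖ ^ 2 *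
          (Real.exp |(i : ℝ)| * Real.exp (-s ^ 2)) := by ring
      _ ≤ 6 * Λ * (2 * n / T + 1 + (F : ℝ) ^ 2) * ‖b n‖ ^ 2 *
          (Real.exp (3 / 2) * Real.exp (-(T ^ 2 / 2) * (v - Real.log n) ^ 2)) := by gcongr
      _ = _ := by ring
  refine (sum_le_sum hblock).trans (le_of_eq ?_)
  rw [← mul_sum]
  congr 1
  exact sum_fiberwise_of_maps_to (fun n hn => mem_image_of_mem j hn) _

/-- **the hybrid large sieve inequality**, Gaussian weight -/
theorem hyb_ls : ∃ C : ℝ, 1 ≤ C ∧ ∀ (N F : ℕ) (b : ℕ → ℂ) (T : ℝ), 1 ≤ T → 1 ≤ F →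
    PF F (fun f χ => ∫ t : ℝ, Real.exp (-(t / T) ^ 2) *
      ‖∑ n ∈ Icc 1 N, (b n * χ (n : ZMod f)) * cexp (-((t * Real.log n : ℝ) : ℂ) * I)‖ ^ 2) ≤
      C * ∑ n ∈ Icc 1 N, (n + T * (F : ℝ) ^ 2) * ‖b n‖ ^ 2 := by
  obtain ⟨C, hC, hfix⟩ := hyb_fixed
  refine ⟨C * 6, by linarith, ?_⟩
  intro N F b T hT hF
  have hT0 : 0 < T := by linarith
  have hF1 : (1 : ℝ) ≤ F := by exact_mod_cast hF
  have h1 : ∀ (f : ℕ) (χ : DirichletCharacter ℂ f), ∫ t : ℝ, Real.exp (-(t / T) ^ 2) *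
      ‖∑ n ∈ Icc 1 N, (b n * χ (n : ZMod f)) * cexp (-((t * Real.log n : ℝ) : ℂ) * I)‖ ^ 2 =
      T ^ 2 * ∫ v : ℝ, ‖∑ n ∈ Icc 1 N, (b n * (Real.exp (-(T * (Real.log n - v)) ^ 2 / 2) : ℝ)) *
      χ (n : ZMod f)‖ ^ 2 := by
    intro f χ
    rw [gauss_id (Icc 1 N) (fun n => b n * χ (n : ZMod f)) (fun n => Real.log n) hT0]
    congr 1
    refine integral_congr_ae (Filter.Eventually.of_forall fun v => ?_)
    simp only
    congr 2
    refine sum_congr rfl fun n _ => ?_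
    ring
  have hint : ∀ (f : ℕ) (χ : DirichletCharacter ℂ f), Integrable fun v : ℝ =>
      ‖∑ n ∈ Icc 1 N, (b n * (Real.exp (-(T * (Real.log n - v)) ^ 2 / 2) : ℝ)) *
      χ (n : ZMod f)‖ ^ 2 := by
    intro f χ
    have hmaj : Integrable fun v : ℝ => ∑ n ∈ Icc 1 N, ∑ m ∈ Icc 1 N, (‖b n‖ * ‖b m‖) *
        (Real.exp (-(T * (Real.log n - v)) ^ 2 / 2) *
          Real.exp (-(T * (Real.log m - v)) ^ 2 / 2)) :=
      integrable_finsetSum _ fun n _ => integrable_finsetSum _ fun m _ =>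
        (gintv_int hT0 _ _).const_mul _
    refine hmaj.mono' (Continuous.aestronglyMeasurable (by fun_prop))
      (Filter.Eventually.of_forall fun v => ?_)
    rw [Real.norm_of_nonneg (by positivity)]
    have h2 : ‖∑ n ∈ Icc 1 N, (b n * (Real.exp (-(T * (Real.log n - v)) ^ 2 / 2) : ℝ)) *
        χ (n : ZMod f)‖ ≤ ∑ n ∈ Icc 1 N, ‖b n‖ * Real.exp (-(T * (Real.log n - v)) ^ 2 / 2) := by
      refine (norm_sum_le _ _).trans (sum_le_sum fun n _ => ?_)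
      rw [norm_mul, norm_mul, Complex.norm_real, Real.norm_of_nonneg (Real.exp_pos _).le]
      exact mul_le_of_le_one_right (by positivity) (DirichletCharacter.norm_le_one χ _)
    refine (pow_le_pow_left₀ (norm_nonneg _) h2 2).trans (le_of_eq ?_)
    rw [sq, sum_mul_sum]
    refine sum_congr rfl fun n _ => sum_congr rfl fun m _ => ?_
    ring
  have h2 : PF F (fun f χ => ∫ t : ℝ, Real.exp (-(t / T) ^ 2) *
      ‖∑ n ∈ Icc 1 N, (b n * χ (n : ZMod f)) * cexp (-((t * Real.log n : ℝ) : ℂ) * I)‖ ^ 2) =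
      T ^ 2 * ∫ v : ℝ, PF F (fun f χ => ‖∑ n ∈ Icc 1 N,
        (b n * (Real.exp (-(T * (Real.log n - v)) ^ 2 / 2) : ℝ)) * χ (n : ZMod f)‖ ^ 2) := by
    simp only [h1]
    rw [PF_const_mul, PF_integral F (fun v f χ => ‖∑ n ∈ Icc 1 N,
        (b n * (Real.exp (-(T * (Real.log n - v)) ^ 2 / 2) : ℝ)) * χ (n : ZMod f)‖ ^ 2) hint]
  rw [h2]
  have hgi : ∀ n : ℕ, Integrable fun v : ℝ => Real.exp (-(T ^ 2 / 2) * (v - Real.log n) ^ 2) :=
    fun n => (integrable_exp_neg_mul_sq (b := T ^ 2 / 2) (by positivity)).comp_sub_right _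
  have hgv : ∀ n : ℕ, ∫ v : ℝ, Real.exp (-(T ^ 2 / 2) * (v - Real.log n) ^ 2) =
      Real.sqrt (2 * Real.pi) / T := by
    intro n
    rw [integral_sub_right_eq_self (fun v : ℝ => Real.exp (-(T ^ 2 / 2) * v ^ 2)),
      integral_gaussian]
    have : Real.pi / (T ^ 2 / 2) = 2 * Real.pi / T ^ 2 := by field_simp
    rw [this, Real.sqrt_div (by positivity), Real.sqrt_sq hT0.le]
  have hI : Integrable fun v : ℝ => PF F (fun f χ => ‖∑ n ∈ Icc 1 N,
        (b n * (Real.exp (-(T * (Real.log n - v)) ^ 2 / 2) : ℝ)) * χ (n : ZMod f)‖ ^ 2) := by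
    unfold PF
    refine integrable_finsetSum _ fun f _ => ?_
    split_ifs
    · exact integrable_finsetSum _ fun χ _ => hint f χ
    · exact integrable_zero _ _ _
  have h3 : ∫ v : ℝ, PF F (fun f χ => ‖∑ n ∈ Icc 1 N,
        (b n * (Real.exp (-(T * (Real.log n - v)) ^ 2 / 2) : ℝ)) * χ (n : ZMod f)‖ ^ 2) ≤
      ∫ v : ℝ, C * ∑ n ∈ Icc 1 N, (2 * n / T + 1 + (F : ℝ) ^ 2) * ‖b n‖ ^ 2 *
        Real.exp (-(T ^ 2 / 2) * (v - Real.log n) ^ 2) := by
    refine integral_mono hI ?_ fun v => hfix N F b T v hT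
    exact (integrable_finsetSum _ fun n _ => (hgi n).const_mul _).const_mul _
  rw [integral_const_mul, integral_finsetSum _ fun n _ => (hgi n).const_mul _] at h3
  simp only [integral_const_mul, hgv] at h3
  refine (mul_le_mul_of_nonneg_left h3 (sq_nonneg T)).trans ?_
  have hpi : Real.sqrt (2 * Real.pi) ≤ 3 := by
    rw [Real.sqrt_le_left (by norm_num)]
    linarith [Real.pi_le_four]
  rw [mul_sum, mul_sum, mul_sum]
  refine sum_le_sum fun n _ => ?_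
  have h4 : (2 * (n : ℝ) / T + 1 + (F : ℝ) ^ 2) * T ≤ 2 * (n + T * (F : ℝ) ^ 2) := by
    have e : (2 * (n : ℝ) / T + 1 + (F : ℝ) ^ 2) * T = 2 * n + T * (1 + (F : ℝ) ^ 2) := by
      field_simp
      ring
    rw [e]
    have : 1 ≤ (F : ℝ) ^ 2 := one_le_pow₀ hF1
    nlinarith
  calc T ^ 2 * (C * ((2 * (n : ℝ) / T + 1 + (F : ℝ) ^ 2) * ‖b n‖ ^ 2 *
        (Real.sqrt (2 * Real.pi) / T))) =
      C * (((2 * (n : ℝ) / T + 1 + (F : ℝ) ^ 2) * T) * ‖b n‖ ^ 2 * Real.sqrt (2 * Real.pi)) := by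
        field_simp
    _ ≤ C * ((2 * (n + T * (F : ℝ) ^ 2)) * ‖b n‖ ^ 2 * 3) := by gcongr
    _ = _ := by ring

end Pool.Agent.T9h27.W
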