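import Pool.Agent.T9h27.W.Hyb
import Pool.Agent.T9h27.D.Pol

/-!
# The large sieve inequality for the twists by the primitive Dirichlet characters (helper27)
-/

set_option autoImplicit false
set_option linter.unusedSectionVars false

namespace Pool.Agent.T9h27.W

open MeasureTheory Complex Finset
open Pool.Agent.T9h27.D

open Classical in
/-- the primitive characters of conductor at most `Q` -/
noncomputable def DF (Q : ℕ) : Finset (Σ q : ℕ, DirichletCharacter ℂ q) :=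
  (Icc 1 Q).sigma fun f => if h : f ≠ 0 then
    haveI : NeZero f := ⟨h⟩
    (univ : Finset (DirichletCharacter ℂ f)).filter (fun χ => χ.IsPrimitive) else ∅

lemma mem_DF {Q : ℕ} {i : Σ q : ℕ, DirichletCharacter ℂ q} :
    i ∈ DF Q ↔ 1 ≤ i.1 ∧ i.1 ≤ Q ∧ i.2.IsPrimitive := by
  classical
  unfold DF
  rw [mem_sigma, mem_Icc, and_assoc]
  refine and_congr_right fun h1 => and_congr_right fun _ => ?_
  rw [dif_pos (by omega : i.1 ≠ 0), mem_filter]
  exact and_iff_right (mem_univ _)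

lemma sum_DF (Q : ℕ) (g : (f : ℕ) → DirichletCharacter ℂ f → ℝ) :
    ∑ i ∈ DF Q, g i.1 i.2 = PF Q g := by
  classical
  unfold DF PF
  rw [sum_sigma]
  refine sum_congr rfl fun f _ => ?_
  split_ifs
  · rfl
  · simp

lemma sum_le_PF {Q : ℕ} {S : Finset (Σ q : ℕ, DirichletCharacter ℂ q)} (hS : S ⊆ DF Q)
    (g : (f : ℕ) → DirichletCharacter ℂ f → ℝ) (hg : ∀ f χ, 0 ≤ g f χ) :
    ∑ i ∈ S, g i.1 i.2 ≤ PF Q g := by
  rw [← sum_DF]
  exact sum_le_sum_of_subset_of_nonneg hS fun i _ _ => hg i.1 i.2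

/-- the number of characters -/
lemma DF_card (Q : ℕ) : ((DF Q).card : ℝ) ≤ (Q : ℝ) ^ 2 := by
  classical
  unfold DF
  rw [card_sigma]
  push_cast
  have h1 : ∀ f ∈ Icc 1 Q, (((if h : f ≠ 0 then
      haveI : NeZero f := ⟨h⟩
      (univ : Finset (DirichletCharacter ℂ f)).filter (fun χ => χ.IsPrimitive) else ∅ :
        Finset (DirichletCharacter ℂ f)).card : ℕ) : ℝ) ≤ Q := by
    intro f hf
    rw [mem_Icc] at hf
    have hf0 : f ≠ 0 := by omega
    rw [dif_pos hf0]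
    haveI : NeZero f := ⟨hf0⟩
    have h2 : ((univ : Finset (DirichletCharacter ℂ f)).filter (fun χ => χ.IsPrimitive)).card ≤
        Fintype.card (DirichletCharacter ℂ f) := by
      refine (card_filter_le _ _).trans ?_
      rw [card_univ]
    have h3 : Fintype.card (DirichletCharacter ℂ f) = Nat.totient f := by
      rw [← Nat.card_eq_fintype_card]
      exact DirichletCharacter.card_eq_totient_of_hasEnoughRootsOfUnity ℂ f
    rw [h3] at h2
    exact_mod_cast (h2.trans (Nat.totient_le f)).trans hf.2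
  refine (sum_le_sum h1).trans ?_
  rw [sum_const, Nat.card_Icc, nsmul_eq_mul]
  simp only [Nat.add_sub_cancel]
  rw [sq]

section

variable {M : Type} [CommMonoidWithZero M] [NormalizationMonoid M] [UniqueFactorizationMonoid M]
  [Subsingleton Mˣ] [Nontrivial M] {N : M →*₀ ℕ} {n : ℕ}

open Classical in
/-- **the large sieve inequality for twists** -/
theorem lsu_tw : ∃ C : ℝ, 1 ≤ C ∧ ∀ {M : Type} [CommMonoidWithZero M] [NormalizationMonoid M]
    [UniqueFactorizationMonoid M] [Subsingleton Mˣ] [Nontrivial M] {N : M →*₀ ℕ} {n : ℕ}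
    (_ : NS N n) (ψ : M →*₀ ℂ) (_ : ∀ a, ‖ψ a‖ ≤ 1) (Q : ℕ) (_ : 1 ≤ Q)
    (S : Finset (Σ q : ℕ, DirichletCharacter ℂ q)) (_ : S ⊆ DF Q)
    (c : (Σ q : ℕ, DirichletCharacter ℂ q) → M →*₀ ℂ)
    (_ : ∀ i a, c i a = ψ a * i.2 ((N a : ℕ) : ZMod i.1)) (H e : ℝ) (_ : 0 < H) (X : ℕ)
    (_ : (X : ℝ) ≤ (Q : ℝ) ^ 2 * max 1 H), LSU N S c H (C * ((Q : ℝ) ^ 2 * H)) e X := by
  obtain ⟨C, hC, hyb⟩ := hyb_ls
  refine ⟨12 + 4 * C, by linarith, ?_⟩
  intro M _ _ _ _ _ N n hN ψ hψ Q hQ S hS c hc H e hH X hX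
  have hQ1 : (1 : ℝ) ≤ Q := by exact_mod_cast hQ
  intro u B t₁ hB hu
  obtain ⟨b, hb⟩ : ∃ b : ℕ → ℂ, ∀ m, b m = ∑ a ∈ (SI N X).filter (fun a => N a = m), u a * ψ a :=
    ⟨_, fun _ => rfl⟩
  obtain ⟨V, hV⟩ : ∃ V : ℝ, V = ∑ m ∈ Icc 1 X, (∑ a ∈ (SI N X).filter (fun a => N a = m),
    ‖u a‖) ^ 2 := ⟨_, rfl⟩
  have hV0 : 0 ≤ V := by rw [hV]; positivity
  have hbV : ∑ m ∈ Icc 1 X, ‖b m‖ ^ 2 ≤ V := by
    rw [hV]
    refine sum_le_sum fun m _ => pow_le_pow_left₀ (norm_nonneg _) ?_ 2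
    rw [hb]
    refine (norm_sum_le _ _).trans (sum_le_sum fun a _ => ?_)
    rw [norm_mul]
    exact mul_le_of_le_one_right (norm_nonneg _) (hψ a)
  have hgrp : ∀ (i : Σ q : ℕ, DirichletCharacter ℂ q) (t : ℝ),
      ∑ a ∈ SI N X, u a * c i a * ph N a t =
      ∑ m ∈ Icc 1 X, (b m * i.2 (m : ZMod i.1)) * cexp (-((t * Real.log m : ℝ) : ℂ) * I) := by
    intro i t
    have hmaps : ∀ a ∈ SI N X, N a ∈ Icc 1 X := fun a ha => by
      rw [mem_Icc]
      exact hN.mem_SI.mp ha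
    rw [← sum_fiberwise_of_maps_to hmaps]
    refine sum_congr rfl fun m _ => ?_
    rw [hb, sum_mul, sum_mul]
    refine sum_congr rfl fun a ha => ?_
    rw [mem_filter] at ha
    rw [hc, ha.2]
    unfold ph
    rw [ha.2, neg_mul]
    ring
  simp only [hgrp]
  rw [← hV]
  have hVB : V ≤ V + B ^ 2 := by have := sq_nonneg B; linarith
  have hB2 := sq_nonneg B
  have hcont : ∀ (i : Σ q : ℕ, DirichletCharacter ℂ q), Continuous fun t : ℝ =>
      ‖∑ m ∈ Icc 1 X, (b m * i.2 (m : ZMod i.1)) * cexp (-((t * Real.log m : ℝ) : ℂ) * I)‖ ^ 2 := by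
    intro i
    fun_prop
  rcases le_or_gt H 1 with hH1 | hH1
  · -- short windows
    have hX' : (X : ℝ) ≤ (Q : ℝ) ^ 2 := by rwa [max_eq_left hH1, mul_one] at hX
    have hpt : ∀ t : ℝ, ∑ i ∈ S, ‖∑ m ∈ Icc 1 X, (b m * i.2 (m : ZMod i.1)) *
        cexp (-((t * Real.log m : ℝ) : ℂ) * I)‖ ^ 2 ≤ 12 * (Q : ℝ) ^ 2 * V := by
      intro t
      obtain ⟨α, hα⟩ : ∃ α : ℕ → ℂ, ∀ m, α m = if m ∈ Icc 1 X then
        b m * cexp (-((t * Real.log m : ℝ) : ℂ) * I) else 0 := ⟨_, fun _ => rfl⟩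
      have h1 : ∀ (f : ℕ) (χ : DirichletCharacter ℂ f), ∑ m ∈ Icc 1 X, (b m * χ (m : ZMod f)) *
          cexp (-((t * Real.log m : ℝ) : ℂ) * I) = ∑ m ∈ Icc 1 X, α m * χ (m : ZMod f) := by
        intro f χ
        refine sum_congr rfl fun m hm => ?_
        rw [hα, if_pos hm]
        ring
      have h2 := sum_le_PF hS (fun f χ => ‖∑ m ∈ Icc 1 X, (b m * χ (m : ZMod f)) *
          cexp (-((t * Real.log m : ℝ) : ℂ) * I)‖ ^ 2) (fun _ _ => by positivity)
      refine h2.trans ?_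
      simp only [h1]
      refine (block_ls X 0 X Q (by omega) α (fun m hm => ?_)).trans ?_
      · rw [hα] at hm
        by_cases h : m ∈ Icc 1 X
        · rw [mem_Icc] at h
          omega
        · rw [if_neg h] at hm
          exact absurd rfl hm
      · have h3 : ∑ m ∈ Icc 1 X, ‖α m‖ ^ 2 = ∑ m ∈ Icc 1 X, ‖b m‖ ^ 2 := by
          refine sum_congr rfl fun m hm => ?_
          rw [hα, if_pos hm, norm_mul, ← Complex.ofReal_neg, Complex.norm_exp_ofReal_mul_I,
            mul_one]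
        rw [h3]
        have h4 : 0 ≤ ∑ m ∈ Icc 1 X, ‖b m‖ ^ 2 := by positivity
        calc 6 * ((X : ℝ) + (Q : ℝ) ^ 2) * ∑ m ∈ Icc 1 X, ‖b m‖ ^ 2 ≤
            6 * ((Q : ℝ) ^ 2 + (Q : ℝ) ^ 2) * V := by gcongr
          _ = _ := by ring
    rw [← intervalIntegral.integral_finsetSum
      (fun i _ => (hcont i).intervalIntegrable _ _)]
    have h5 : ∫ t in t₁..(t₁ + H), ∑ i ∈ S, ‖∑ m ∈ Icc 1 X, (b m * i.2 (m : ZMod i.1)) *
        cexp (-((t * Real.log m : ℝ) : ℂ) * I)‖ ^ 2 ≤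
        ∫ _t in t₁..(t₁ + H), 12 * (Q : ℝ) ^ 2 * V := by
      refine intervalIntegral.integral_mono_on (by linarith)
        (Continuous.intervalIntegrable (continuous_finsetSum _ fun i _ => hcont i) _ _)
        (intervalIntegrable_const) fun t _ => hpt t
    rw [intervalIntegral.integral_const, smul_eq_mul, add_sub_cancel_left] at h5
    refine h5.trans ?_
    calc H * (12 * (Q : ℝ) ^ 2 * V) = 12 * ((Q : ℝ) ^ 2 * H) * V := by ring
      _ ≤ (12 + 4 * C) * ((Q : ℝ) ^ 2 * H) * (V + B ^ 2) := by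
          gcongr
          linarith
  · -- long windows
    have hX' : (X : ℝ) ≤ (Q : ℝ) ^ 2 * H := by rwa [max_eq_right hH1.le] at hX
    obtain ⟨tc, htc⟩ : ∃ tc : ℝ, tc = t₁ + H / 2 := ⟨_, rfl⟩
    obtain ⟨β, hβ⟩ : ∃ β : ℕ → ℂ, ∀ m, β m = b m * cexp (-((tc * Real.log m : ℝ) : ℂ) * I) :=
      ⟨_, fun _ => rfl⟩
    obtain ⟨G, hG⟩ : ∃ G : (f : ℕ) → DirichletCharacter ℂ f → ℝ → ℝ, ∀ f χ t, G f χ t =
      ‖∑ m ∈ Icc 1 X, (β m * χ (m : ZMod f)) * cexp (-((t * Real.log m : ℝ) : ℂ) * I)‖ ^ 2 :=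
      ⟨_, fun _ _ _ => rfl⟩
    have hshift : ∀ (i : Σ q : ℕ, DirichletCharacter ℂ q) (t : ℝ),
        ‖∑ m ∈ Icc 1 X, (b m * i.2 (m : ZMod i.1)) * cexp (-((t * Real.log m : ℝ) : ℂ) * I)‖ ^ 2 =
        G i.1 i.2 (t - tc) := by
      intro i t
      rw [hG]
      congr 2
      refine sum_congr rfl fun m _ => ?_
      rw [hβ]
      have : cexp (-((t * Real.log m : ℝ) : ℂ) * I) = cexp (-((tc * Real.log m : ℝ) : ℂ) * I) *
          cexp (-(((t - tc) * Real.log m : ℝ) : ℂ) * I) := by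
        rw [← Complex.exp_add]
        congr 1
        push_cast
        ring
      rw [this]
      ring
    have hGc : ∀ f χ, Continuous (G f χ) := by
      intro f χ
      have : G f χ = fun t => ‖∑ m ∈ Icc 1 X, (β m * χ (m : ZMod f)) *
        cexp (-((t * Real.log m : ℝ) : ℂ) * I)‖ ^ 2 := funext (hG f χ)
      rw [this]
      fun_prop
    have hG0 : ∀ f χ t, 0 ≤ G f χ t := fun f χ t => by rw [hG]; positivity
    have hGb : ∀ f χ t, G f χ t ≤ (∑ m ∈ Icc 1 X, ‖β m‖) ^ 2 := by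
      intro f χ t
      rw [hG]
      refine pow_le_pow_left₀ (norm_nonneg _) ((norm_sum_le _ _).trans (sum_le_sum fun m _ => ?_)) 2
      rw [norm_mul, norm_mul, ← Complex.ofReal_neg, Complex.norm_exp_ofReal_mul_I, mul_one]
      exact mul_le_of_le_one_right (norm_nonneg _) (DirichletCharacter.norm_le_one χ _)
    have hwi : Integrable fun t : ℝ => Real.exp (-(t / H) ^ 2) := by
      refine (integrable_exp_neg_mul_sq (b := 1 / H ^ 2) (by positivity)).congr
        (Filter.Eventually.of_forall fun t => ?_)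
      simp only
      congr 1
      field_simp
    have hGi : ∀ f χ, Integrable fun t : ℝ => Real.exp (-(t / H) ^ 2) * G f χ t := by
      intro f χ
      refine (hwi.mul_const ((∑ m ∈ Icc 1 X, ‖β m‖) ^ 2)).mono'
        (((by fun_prop : Continuous fun t : ℝ => Real.exp (-(t / H) ^ 2)).mul
          (hGc f χ)).aestronglyMeasurable) (Filter.Eventually.of_forall fun t => ?_)
      rw [Real.norm_of_nonneg (mul_nonneg (Real.exp_pos _).le (hG0 f χ t))]
      exact mul_le_mul_of_nonneg_left (hGb f χ t) (Real.exp_pos _).le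
    have hwin : ∀ i ∈ S, ∫ t in t₁..(t₁ + H), ‖∑ m ∈ Icc 1 X, (b m * i.2 (m : ZMod i.1)) *
        cexp (-((t * Real.log m : ℝ) : ℂ) * I)‖ ^ 2 ≤
        2 * ∫ t : ℝ, Real.exp (-(t / H) ^ 2) * G i.1 i.2 t := by
      intro i _
      simp only [hshift]
      rw [← integral_const_mul, ← integral_sub_right_eq_self
        (fun t : ℝ => 2 * (Real.exp (-(t / H) ^ 2) * G i.1 i.2 t)) tc,
        intervalIntegral.integral_of_le (by linarith)]
      refine (setIntegral_mono_on (g := fun t : ℝ => 2 * (Real.exp (-((t - tc) / H) ^ 2) *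
        G i.1 i.2 (t - tc))) ?_ ?_ measurableSet_Ioc ?_).trans ?_
      · exact (((hGc i.1 i.2).comp (by fun_prop : Continuous fun t : ℝ => t - tc)).integrableOn_Icc
          (a := t₁) (b := t₁ + H)).mono_set Set.Ioc_subset_Icc_self
      · exact (((hGi i.1 i.2).comp_sub_right tc).const_mul 2).integrableOn
      · intro t ht
        have h6 : ((t - tc) / H) ^ 2 ≤ 1 / 4 := by
          have h7 : |(t - tc) / H| ≤ 1 / 2 := by
            rw [abs_div, abs_of_pos hH, div_le_iff₀ hH, htc, abs_le]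
            constructor <;> linarith [ht.1, ht.2]
          rw [← sq_abs]
          nlinarith [abs_nonneg ((t - tc) / H)]
        have h8 : 1 / 2 ≤ Real.exp (-((t - tc) / H) ^ 2) := by
          have := Real.add_one_le_exp (-((t - tc) / H) ^ 2)
          linarith
        have h9 := hG0 i.1 i.2 (t - tc)
        nlinarith
      · refine setIntegral_le_integral (((hGi i.1 i.2).comp_sub_right tc).const_mul 2)
          (Filter.Eventually.of_forall fun t => ?_)
        have := hG0 i.1 i.2 (t - tc)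
        simp only [Pi.zero_apply]
        positivity
    refine (sum_le_sum hwin).trans ?_
    rw [← mul_sum]
    have h10 := sum_le_PF hS (fun f χ => ∫ t : ℝ, Real.exp (-(t / H) ^ 2) * G f χ t)
      (fun f χ => integral_nonneg fun t => mul_nonneg (Real.exp_pos _).le (hG0 f χ t))
    have h11 := hyb X Q β H hH1.le hQ
    simp only [← hG] at h11
    have h12 : ∑ m ∈ Icc 1 X, ((m : ℝ) + H * (Q : ℝ) ^ 2) * ‖β m‖ ^ 2 ≤
        2 * ((Q : ℝ) ^ 2 * H) * V := by
      have h13 : ∀ m, ‖β m‖ = ‖b m‖ := fun m => by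
        rw [hβ, norm_mul, ← Complex.ofReal_neg, Complex.norm_exp_ofReal_mul_I, mul_one]
      simp only [h13]
      refine le_trans ?_ (mul_le_mul_of_nonneg_left hbV (by positivity))
      rw [mul_sum]
      refine sum_le_sum fun m hm => ?_
      rw [mem_Icc] at hm
      have h14 : (m : ℝ) ≤ X := by exact_mod_cast hm.2
      have h15 : (m : ℝ) + H * (Q : ℝ) ^ 2 ≤ 2 * ((Q : ℝ) ^ 2 * H) := by nlinarith
      exact mul_le_mul_of_nonneg_right h15 (by positivity)
    calc 2 * ∑ i ∈ S, ∫ t : ℝ, Real.exp (-(t / H) ^ 2) * G i.1 i.2 t ≤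
        2 * (C * (2 * ((Q : ℝ) ^ 2 * H) * V)) := by
          refine mul_le_mul_of_nonneg_left ?_ (by norm_num)
          exact (h10.trans h11).trans (mul_le_mul_of_nonneg_left h12 (by linarith))
      _ = (4 * C) * ((Q : ℝ) ^ 2 * H) * V := by ring
      _ ≤ (12 + 4 * C) * ((Q : ℝ) ^ 2 * H) * (V + B ^ 2) := by
          have hC0 : 0 ≤ C := by linarith
          gcongr
          linarith

end

end Pool.Agent.T9h27.W
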